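import Pool.Agent.Helper97.CV.Count

/-!
MP_8ee768_co (thread TH-Y'): minimal covers. Among the odd (13,5,4)-covers with the smallest number
of blocks take one whose sorted vector of point degrees is lexicographically smallest. Then every
6-set contains at most 3 blocks, and if it contains exactly 3, every point contained in all three
blocks has a larger degree than some point missed by one of them.
-/

set_option autoImplicit false

namespace Pool.Agent.Helper4.CV

open Finset
open Pool.Agent.Helper89.CV (OddCover)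
open Pool.Agent.Helper97.CV

/-- the flip at `W`: exchange the 5-subsets of `W` in `B` with the ones not in `B` -/
def flip (B : Finset (Finset (Fin 13))) (W : Finset (Fin 13)) : Finset (Finset (Fin 13)) :=
  symmDiff B (powersetCard 5 W)

theorem card_symmDiff_add {α : Type} [DecidableEq α] (s t : Finset α) :
    (symmDiff s t).card + 2 * (s ∩ t).card = s.card + t.card := by
  have h1 : (symmDiff s t).card = (s \ t).card + (t \ s).card := by
    rw [symmDiff_def, sup_eq_union, card_union_of_disjoint]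
    exact disjoint_sdiff_sdiff
  have h2 := card_sdiff_add_card_inter s t
  have h3 := card_sdiff_add_card_inter t s
  rw [inter_comm t s] at h3
  omega

theorem symmDiff_filter {α : Type} [DecidableEq α] (s t : Finset α) (p : α → Prop)
    [DecidablePred p] : (symmDiff s t).filter p = symmDiff (s.filter p) (t.filter p) := by
  ext a
  simp only [mem_filter, mem_symmDiff]
  tauto

theorem even_star (W q : Finset (Fin 13)) (hW : W.card = 6) (hq : q.card = 4) :
    Even ((powersetCard 5 W).filter fun b => q ⊆ b).card := by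
  by_cases hqW : q ⊆ W
  · have h1 : ((powersetCard 5 W).filter fun b => q ⊆ b) = (W \ q).image fun w => W.erase w := by
      ext b
      simp only [mem_filter, mem_powersetCard, mem_image, mem_sdiff]
      constructor
      · rintro ⟨⟨hbW, hb⟩, hqb⟩
        have h2 : (W \ b).card = 1 := by
          rw [card_sdiff_of_subset hbW]; omega
        obtain ⟨w, hw⟩ := card_eq_one.1 h2
        have hw' : w ∈ W \ b := by rw [hw]; exact mem_singleton_self w
        rw [mem_sdiff] at hw'
        refine ⟨w, ⟨hw'.1, fun h => hw'.2 (hqb h)⟩, ?_⟩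
        apply eq_of_subset_of_card_le
        · intro x hx
          rw [mem_erase] at hx
          by_contra hxb
          have : x ∈ W \ b := mem_sdiff.2 ⟨hx.2, hxb⟩
          rw [hw, mem_singleton] at this
          exact hx.1 this
        · rw [card_erase_of_mem hw'.1]; omega
      · rintro ⟨w, ⟨hwW, hwq⟩, rfl⟩
        refine ⟨⟨erase_subset _ _, by rw [card_erase_of_mem hwW]; omega⟩, ?_⟩
        intro x hx
        rw [mem_erase]
        exact ⟨fun h => hwq (h ▸ hx), hqW hx⟩
    rw [h1, card_image_of_injOn, card_sdiff_of_subset hqW, hW, hq]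
    · exact ⟨1, rfl⟩
    · intro a ha b hb hab
      have ha' : a ∈ W := (mem_sdiff.1 (mem_coe.1 ha)).1
      by_contra hne
      have h3 : a ∈ W.erase b := mem_erase.2 ⟨hne, ha'⟩
      have h4 : W.erase a = W.erase b := hab
      rw [← h4] at h3
      exact (notMem_erase a W) h3
  · have h1 : ((powersetCard 5 W).filter fun b => q ⊆ b) = ∅ := by
      ext b
      simp only [mem_filter, mem_powersetCard, notMem_empty, iff_false, not_and]
      intro hb hqb
      exact hqW (hqb.trans hb.1)
    rw [h1, card_empty]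
    exact ⟨0, rfl⟩

theorem oddCover_flip {B : Finset (Finset (Fin 13))} (hB : OddCover B) {W : Finset (Fin 13)}
    (hW : W.card = 6) : OddCover (flip B W) := by
  refine ⟨?_, ?_⟩
  · intro b hb
    unfold flip at hb
    rw [mem_symmDiff] at hb
    rcases hb with h | h
    · exact hB.1 b h.1
    · exact (mem_powersetCard.1 h.1).2
  · intro q hq
    have h1 := card_symmDiff_add (B.filter fun b => q ⊆ b) ((powersetCard 5 W).filter fun b => q ⊆ b)
    have h2 := even_star W q hW hq
    have h3 := hB.2 q hq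
    unfold flip
    rw [symmDiff_filter]
    obtain ⟨c, hc⟩ := h2
    obtain ⟨d, hd⟩ := h3
    rw [hc, hd] at h1
    refine ⟨c + d - (B.filter (fun b => q ⊆ b) ∩ (powersetCard 5 W).filter fun b => q ⊆ b).card, ?_⟩
    have h4 : (B.filter (fun b => q ⊆ b) ∩ (powersetCard 5 W).filter fun b => q ⊆ b).card ≤
      ((powersetCard 5 W).filter fun b => q ⊆ b).card := card_le_card inter_subset_right
    rw [hc] at h4
    have h5 : (B.filter (fun b => q ⊆ b) ∩ (powersetCard 5 W).filter fun b => q ⊆ b).card ≤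
      (B.filter (fun b => q ⊆ b)).card := card_le_card inter_subset_left
    rw [hd] at h5
    omega

theorem inter_powersetCard {B : Finset (Finset (Fin 13))} (hB : OddCover B) (W : Finset (Fin 13)) :
    B ∩ powersetCard 5 W = B.filter fun b => b ⊆ W := by
  ext b
  simp only [mem_inter, mem_powersetCard, mem_filter]
  constructor
  · rintro ⟨h1, h2, _⟩
    exact ⟨h1, h2⟩
  · rintro ⟨h1, h2⟩
    exact ⟨h1, h2, hB.1 b h1⟩

theorem card_flip {B : Finset (Finset (Fin 13))} (hB : OddCover B) {W : Finset (Fin 13)}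
    (hW : W.card = 6) : (flip B W).card + 2 * (B.filter fun b => b ⊆ W).card = B.card + 6 := by
  have h1 := card_symmDiff_add B (powersetCard 5 W)
  rw [inter_powersetCard hB, card_powersetCard, hW] at h1
  exact h1

theorem cnt_flip_notMem {B : Finset (Finset (Fin 13))} {W : Finset (Fin 13)} {x : Fin 13}
    (hx : x ∉ W) : cnt (flip B W) {x} = cnt B {x} := by
  unfold cnt flip
  rw [symmDiff_filter]
  have h1 : ((powersetCard 5 W).filter fun b => {x} ⊆ b) = ∅ := by
    ext b
    simp only [mem_filter, mem_powersetCard, notMem_empty, iff_false, not_and, singleton_subset_iff]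
    intro hb hxb
    exact hx (hb.1 hxb)
  rw [h1]
  congr 1
  ext a
  rw [mem_symmDiff]
  simp

theorem card_star_mem {W : Finset (Fin 13)} (hW : W.card = 6) {x : Fin 13} (hx : x ∈ W) :
    ((powersetCard 5 W).filter fun b => {x} ⊆ b).card = 5 := by
  have h1 := card_filter_add_card_filter_not (s := powersetCard 5 W) (fun b => {x} ⊆ b)
  rw [card_powersetCard, hW] at h1
  have h2 : ((powersetCard 5 W).filter fun b => ¬ {x} ⊆ b) = {W.erase x} := by
    ext b
    simp only [mem_filter, mem_powersetCard, singleton_subset_iff, mem_singleton]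
    constructor
    · rintro ⟨⟨h3, h4⟩, h5⟩
      apply eq_of_subset_of_card_le
      · exact subset_erase.2 ⟨h3, h5⟩
      · rw [card_erase_of_mem hx]; omega
    · rintro rfl
      exact ⟨⟨erase_subset _ _, by rw [card_erase_of_mem hx]; omega⟩, notMem_erase _ _⟩
  rw [h2, card_singleton] at h1
  have h3 : Nat.choose 6 5 = 6 := by decide
  rw [h3] at h1
  omega

theorem cnt_flip_mem {B : Finset (Finset (Fin 13))} (hB : OddCover B) {W : Finset (Fin 13)}
    (hW : W.card = 6) {x : Fin 13} (hx : x ∈ W) :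
    cnt (flip B W) {x} + 2 * (B.filter fun b => b ⊆ W ∧ x ∈ b).card = cnt B {x} + 5 := by
  unfold cnt flip
  rw [symmDiff_filter]
  have h1 := card_symmDiff_add (B.filter fun b => {x} ⊆ b) ((powersetCard 5 W).filter fun b => {x} ⊆ b)
  rw [card_star_mem hW hx] at h1
  have h2 : B.filter (fun b => {x} ⊆ b) ∩ (powersetCard 5 W).filter (fun b => {x} ⊆ b) =
      B.filter fun b => b ⊆ W ∧ x ∈ b := by
    ext b
    simp only [mem_inter, mem_filter, mem_powersetCard, singleton_subset_iff]
    constructor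
    · rintro ⟨⟨h3, h4⟩, ⟨h5, _⟩, _⟩
      exact ⟨h3, h5, h4⟩
    · rintro ⟨h3, h4, h5⟩
      exact ⟨⟨h3, h5⟩, ⟨h4, hB.1 b h3⟩, h5⟩
  rw [h2] at h1
  exact h1

/-- the potential -/
def pot (B : Finset (Finset (Fin 13))) : ℕ := ∑ x : Fin 13, 5 ^ (200 - cnt B {x})

/-- a good cover: no flip improves it -/
structure Good (B : Finset (Finset (Fin 13))) : Prop where
  odd : OddCover B
  card_le : B.card ≤ 157
  three : ∀ W : Finset (Fin 13), W.card = 6 → (B.filter fun b => b ⊆ W).card ≤ 3
  lex : ∀ W : Finset (Fin 13), W.card = 6 → (B.filter fun b => b ⊆ W).card = 3 →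
    ∀ w ∈ W, (∀ b ∈ B, b ⊆ W → w ∈ b) →
      ∃ a ∈ W, (∃ b ∈ B, b ⊆ W ∧ a ∉ b) ∧ cnt B {a} < cnt B {w}

theorem cnt_le_card (B : Finset (Finset (Fin 13))) (s : Finset (Fin 13)) : cnt B s ≤ B.card :=
  card_filter_le _ _

theorem exists_good {B : Finset (Finset (Fin 13))} (hB : OddCover B) (hc : B.card ≤ 157) :
    ∃ B', Good B' := by
  classical
  -- the smallest size
  let S : Finset (Finset (Finset (Fin 13))) := univ.filter fun B => OddCover B
  have hS : S.Nonempty := ⟨B, by simp [S, hB]⟩
  obtain ⟨B0, hB0, hmin⟩ := exists_min_image S card hS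
  let S' : Finset (Finset (Finset (Fin 13))) := S.filter fun B => B.card = B0.card
  have hS' : S'.Nonempty := ⟨B0, by simp only [S', mem_filter]; exact ⟨hB0, trivial⟩⟩
  obtain ⟨B1, hB1, hmax⟩ := exists_max_image S' pot hS'
  have hB1' : OddCover B1 ∧ B1.card = B0.card := by
    simpa [S', S] using hB1
  have hc1 : B1.card ≤ 157 := by
    rw [hB1'.2]
    exact (hmin B (by simp [S, hB])).trans hc
  have hthree : ∀ W : Finset (Fin 13), W.card = 6 → (B1.filter fun b => b ⊆ W).card ≤ 3 := by
    intro W hW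
    have h1 := card_flip hB1'.1 hW
    have h2 := hmin (flip B1 W) (by simp [S, oddCover_flip hB1'.1 hW])
    have h3 := hB1'.2
    omega
  refine ⟨B1, hB1'.1, hc1, hthree, ?_⟩
  intro W hW h3 w hw hall
  by_contra hcon
  push Not at hcon
  -- the missed points
  let A : Finset (Fin 13) := W.filter fun a => ∃ b ∈ B1, b ⊆ W ∧ a ∉ b
  have hA : ∀ a ∈ A, cnt B1 {w} ≤ cnt B1 {a} := by
    intro a ha
    obtain ⟨haW, hab⟩ := mem_filter.1 ha
    exact hcon a haW hab
  have hAc : A.card ≤ 3 := by
    have h4 : A ⊆ ((B1.filter fun b => b ⊆ W).image fun b => W \ b).biUnion id := by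
      intro a ha
      obtain ⟨haW, b, hb, hbW, hab⟩ := mem_filter.1 ha
      rw [mem_biUnion]
      exact ⟨W \ b, mem_image.2 ⟨b, mem_filter.2 ⟨hb, hbW⟩, rfl⟩, mem_sdiff.2 ⟨haW, hab⟩⟩
    refine (card_le_card h4).trans ?_
    refine card_biUnion_le.trans ?_
    refine (sum_le_card_nsmul _ _ 1 ?_).trans ?_
    · intro s hs
      obtain ⟨b, hb, rfl⟩ := mem_image.1 hs
      obtain ⟨hb1, hbW⟩ := mem_filter.1 hb
      have h5 := hB1'.1.1 b hb1
      simp only [id]
      rw [card_sdiff_of_subset hbW]
      omega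
    · rw [smul_eq_mul, mul_one]
      exact card_image_le.trans h3.le
  have hwA : w ∉ A := by
    intro h
    obtain ⟨_, b, hb, hbW, hab⟩ := mem_filter.1 h
    exact hab (hall b hb hbW)
  -- the degrees of the flipped cover
  have hW2 : ∀ x ∈ W, x ∉ A → cnt (flip B1 W) {x} + 1 = cnt B1 {x} := by
    intro x hx hxA
    have h4 := cnt_flip_mem hB1'.1 hW hx
    have h5 : (B1.filter fun b => b ⊆ W ∧ x ∈ b) = B1.filter fun b => b ⊆ W := by
      ext b
      simp only [mem_filter]
      constructor
      · rintro ⟨h6, h7, _⟩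
        exact ⟨h6, h7⟩
      · rintro ⟨h6, h7⟩
        refine ⟨h6, h7, ?_⟩
        by_contra hxb
        exact hxA (mem_filter.2 ⟨hx, b, h6, h7, hxb⟩)
    rw [h5, h3] at h4
    omega
  have hcf : (flip B1 W).card = B1.card := by
    have h4 := card_flip hB1'.1 hW
    omega
  have hmem : flip B1 W ∈ S' := by
    simp only [S', S, mem_filter, mem_univ, true_and]
    exact ⟨oddCover_flip hB1'.1 hW, hcf.trans hB1'.2⟩
  have h6 := hmax _ hmem
  unfold pot at h6
  have hsplit : ∀ f : Fin 13 → ℕ, ∑ x : Fin 13, f x =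
      ∑ x ∈ A, f x + (f w + ∑ x ∈ (univ \ A).erase w, f x) := by
    intro f
    rw [add_sum_erase _ _ (mem_sdiff.2 ⟨mem_univ w, hwA⟩), add_comm, sum_sdiff (subset_univ A)]
  rw [hsplit (fun x => 5 ^ (200 - cnt (flip B1 W) {x})), hsplit (fun x => 5 ^ (200 - cnt B1 {x}))]
    at h6
  have h7 : ∑ x ∈ (univ \ A).erase w, 5 ^ (200 - cnt B1 {x}) ≤
      ∑ x ∈ (univ \ A).erase w, 5 ^ (200 - cnt (flip B1 W) {x}) := by
    refine sum_le_sum fun x hx => ?_
    have hxA : x ∉ A := (mem_sdiff.1 (mem_of_mem_erase hx)).2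
    refine Nat.pow_le_pow_right (by norm_num) ?_
    by_cases hxW : x ∈ W
    · have := hW2 x hxW hxA
      omega
    · rw [cnt_flip_notMem hxW]
  have h8 : 5 ^ (200 - cnt (flip B1 W) {w}) = 5 * 5 ^ (200 - cnt B1 {w}) := by
    have h9 := hW2 w hw hwA
    have h10 := (cnt_le_card B1 {w}).trans hc1
    rw [← pow_succ']
    congr 1
    omega
  have h9 : ∑ x ∈ A, 5 ^ (200 - cnt B1 {x}) ≤ 3 * 5 ^ (200 - cnt B1 {w}) := by
    refine (sum_le_card_nsmul _ _ (5 ^ (200 - cnt B1 {w})) ?_).trans ?_
    · intro a ha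
      refine Nat.pow_le_pow_right (by norm_num) ?_
      have := hA a ha
      omega
    · rw [smul_eq_mul]
      exact Nat.mul_le_mul_right _ hAc
  have h10 : 0 < 5 ^ (200 - cnt B1 {w}) := by positivity
  rw [h8] at h6
  generalize 5 ^ (200 - cnt B1 {w}) = t at *
  generalize ∑ x ∈ A, 5 ^ (200 - cnt B1 {x}) = s1 at *
  generalize ∑ x ∈ A, 5 ^ (200 - cnt (flip B1 W) {x}) = s2 at *
  omega

/-- a point of smallest degree: no 5-set avoiding it contains three quadruples of its link -/
theorem Good.reduced {B : Finset (Finset (Fin 13))} (hB : Good B) {x : Fin 13}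
    (hx : ∀ y, cnt B {x} ≤ cnt B {y}) {C : Finset (Fin 13)} (hC : C.card = 5) (hxC : x ∉ C) :
    (B.filter fun b => x ∈ b ∧ b ⊆ insert x C).card ≤ 2 := by
  have hW : (insert x C).card = 6 := by rw [card_insert_of_notMem hxC, hC]
  have h1 := hB.three _ hW
  have h2 : (B.filter fun b => x ∈ b ∧ b ⊆ insert x C) ⊆ B.filter fun b => b ⊆ insert x C := by
    intro b hb
    rw [mem_filter] at hb ⊢
    exact ⟨hb.1, hb.2.2⟩
  by_contra hcon
  have h3 := card_le_card h2
  have h4 : (B.filter fun b => b ⊆ insert x C).card = 3 := by omega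
  have h5 : (B.filter fun b => x ∈ b ∧ b ⊆ insert x C) = B.filter fun b => b ⊆ insert x C :=
    eq_of_subset_of_card_le h2 (by omega)
  obtain ⟨a, _, _, ha⟩ := hB.lex _ hW h4 x (mem_insert_self _ _) (by
    intro b hb hbW
    have : b ∈ B.filter fun b => x ∈ b ∧ b ⊆ insert x C := by
      rw [h5]
      exact mem_filter.2 ⟨hb, hbW⟩
    exact (mem_filter.1 this).2.1)
  exact absurd (hx a) (by omega)

theorem Good.lex_MM {B : Finset (Finset (Fin 13))} (hB : Good B) {W : Finset (Fin 13)}
    (hW : W.card = 6) (h3 : (B.filter fun b => b ⊆ W).card = 3) {w : Fin 13} (hw : w ∈ W)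
    (hall : ∀ b ∈ B, b ⊆ W → w ∈ b) :
    ∃ a ∈ W, (∃ b ∈ B, b ⊆ W ∧ a ∉ b) ∧ MM B a < MM B w := by
  obtain ⟨a, ha, hb, hlt⟩ := hB.lex W hW h3 w hw hall
  have h1 := two_cnt_point hB.odd a
  have h2 := two_cnt_point hB.odd w
  exact ⟨a, ha, hb, by omega⟩

theorem Good.reduced_MM {B : Finset (Finset (Fin 13))} (hB : Good B) {x : Fin 13}
    (hx : ∀ y, MM B x ≤ MM B y) {C : Finset (Fin 13)} (hC : C.card = 5) (hxC : x ∉ C) :
    (B.filter fun b => x ∈ b ∧ b ⊆ insert x C).card ≤ 2 := by
  refine hB.reduced (fun y => ?_) hC hxC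
  have h1 := two_cnt_point hB.odd x
  have h2 := two_cnt_point hB.odd y
  have h3 := hx y
  omega

end Pool.Agent.Helper4.CV
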