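import Pool.Agent.Helper4.CV.Counts
import Pool.Agent.Helper82.TY.Relabel

/-!
MP_8ee768_co (project TH-Y'): THE FROZEN STAGE STATEMENTS. All of them are about a `Best` cover
(helper82: minimum size, lexicographically smallest sorted vector of the `MM`; invariant under
relabelling by `Best.map`; `Best.odd`, `Best.le`). A point is light if `MM ≤ 6`, small if
`MM ≤ 4`, heavy if `8 ≤ MM` (`MM` is even). Order: D, A, B1, E, T, F, S (00, 02, 04, 22, 24), X.
-/

set_option autoImplicit false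

namespace Pool.Agent.Helper4.CV

open Finset
open Pool.Agent.Helper89.CV (OddCover)
open Pool.Agent.Helper97.CV
open Pool.Agent.Helper82.TY (Best)

/-- stage D: no light pair with excess at least 2 -/
def StD : Prop := ∀ B, Best B → ∀ x y : Fin 13, x ≠ y → MM B x ≤ 6 → MM B y ≤ 6 →
  2 ≤ mm B x y → False

/-- stage A: no light 2-path and no light triangle -/
def StA : Prop := ∀ B, Best B → ∀ x y z : Fin 13, x ≠ y → x ≠ z → y ≠ z →
  MM B x ≤ 6 → MM B y ≤ 6 → MM B z ≤ 6 → 1 ≤ mm B x y → 1 ≤ mm B x z → False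

/-- what the stages D and A give: the edges between light points are simple and form a matching -/
structure Mat (B : Finset (Finset (Fin 13))) : Prop where
  two : ∀ x y : Fin 13, x ≠ y → MM B x ≤ 6 → MM B y ≤ 6 → mm B x y ≤ 1
  path : ∀ x y z : Fin 13, x ≠ y → x ≠ z → y ≠ z → MM B x ≤ 6 → MM B y ≤ 6 → MM B z ≤ 6 →
    1 ≤ mm B x y → mm B x z = 0

/-- stage B1a: no edge between a small and a light point if there is a third small point (`z` of
minimum `MM` among the other points) -/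
def StB1a : Prop := ∀ B, Best B → Mat B → ∀ x y z : Fin 13, x ≠ y → x ≠ z → y ≠ z →
  mm B x y = 1 → MM B x ≤ 4 → MM B x ≤ MM B y → MM B y ≤ 6 → MM B z ≤ 4 →
  (∀ u, u ≠ x → u ≠ y → MM B z ≤ MM B u) → False

/-- stage B1b: no edge between a small and a light point if all other points have `6 ≤ MM`; there
are two further points with `MM = 6` -/
def StB1b : Prop := ∀ B, Best B → Mat B → ∑ z, MM B z = 88 → ∀ x y : Fin 13, x ≠ y →
  mm B x y = 1 → MM B x ≤ 4 → MM B x ≤ MM B y → MM B y ≤ 6 →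
  (∀ u, u ≠ x → u ≠ y → 6 ≤ MM B u) →
  ∀ z w : Fin 13, z ≠ w → z ≠ x → z ≠ y → w ≠ x → w ≠ y → MM B z = 6 → MM B w = 6 → False

/-- what the stages B1 give -/
def NoS (B : Finset (Finset (Fin 13))) : Prop :=
  ∀ x y : Fin 13, x ≠ y → MM B x ≤ 4 → MM B y ≤ 6 → mm B x y = 0

/-- stage E: `x` of minimum `MM`, at most 2, at most one further small point, no edge 6-6 -/
def StE : Prop := ∀ B, Best B → Mat B → NoS B → ∑ z, MM B z = 88 → ∀ x y z : Fin 13,
  y ≠ z → (∀ u, MM B x ≤ MM B u) → MM B x ≤ 2 → MM B y = 6 → MM B z = 6 → mm B y z = 1 →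
  ∀ s, (∀ u, u ≠ x → u ≠ s → 6 ≤ MM B u) → False

/-- stage T: the vector `(4, 4; 6^4 | 8^7)` with two edges 6-6 -/
def StT : Prop := ∀ B, Best B → Mat B → NoS B → ∑ z, MM B z = 88 → ∀ x z y1 y2 y3 y4 : Fin 13,
  x ≠ z → y1 ≠ y2 → y1 ≠ y3 → y1 ≠ y4 → y2 ≠ y3 → y2 ≠ y4 → y3 ≠ y4 →
  MM B x = 4 → MM B z = 4 → MM B y1 = 6 → MM B y2 = 6 → MM B y3 = 6 → MM B y4 = 6 →
  (∀ u, u ≠ x → u ≠ z → u ≠ y1 → u ≠ y2 → u ≠ y3 → u ≠ y4 → MM B u = 8) →
  mm B y1 y2 = 1 → mm B y3 y4 = 1 → mm B y1 y3 = 0 → mm B y1 y4 = 0 → mm B y2 y3 = 0 →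
  mm B y2 y4 = 0 → aa B {x, z, y1, y2, y3, y4} 0 = 0 → aa B {x, z, y1, y2, y3, y4} 3 = 0 →
  aa B {x, z, y1, y2, y3, y4} 4 = 0 → False

/-- stage F: no three small points -/
def StF : Prop := ∀ B, Best B → Mat B → NoS B → 3 ≤ (univ.filter fun z => MM B z ≤ 4).card →
  False

/-- the light points are independent -/
def Ind (B : Finset (Finset (Fin 13))) : Prop :=
  ∀ x y : Fin 13, x ≠ y → MM B x ≤ 6 → MM B y ≤ 6 → mm B x y = 0

/-- two small points with `MM = a, b`, all other points have `6 ≤ MM` -/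
structure TwoS (B : Finset (Finset (Fin 13))) (x y : Fin 13) (a b : ℕ) : Prop where
  best : Best B
  ind : Ind B
  ne : x ≠ y
  hx : MM B x = a
  hy : MM B y = b
  other : ∀ u, u ≠ x → u ≠ y → 6 ≤ MM B u
  sum : ∑ z, MM B z = 88

/-- stage (0,0) -/
def St00 : Prop := ∀ B x y, TwoS B x y 0 0 → False

/-- stage (0,2): there is a point with `MM = 6` -/
def St02 : Prop := ∀ B x y, TwoS B x y 0 2 → ∀ z, MM B z = 6 → False

/-- stage (0,4): there are two points with `MM = 6` -/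
def St04 : Prop := ∀ B x y, TwoS B x y 0 4 → ∀ z w, z ≠ w → MM B z = 6 → MM B w = 6 → False

/-- stage (2,2): there are two points with `MM = 6` -/
def St22 : Prop := ∀ B x y, TwoS B x y 2 2 → ∀ z w, z ≠ w → MM B z = 6 → MM B w = 6 → False

/-- stage (2,4): three points with `MM = 6`, all others `MM = 8` -/
def St24 : Prop := ∀ B x y, TwoS B x y 2 4 → ∀ z w v, z ≠ w → z ≠ v → w ≠ v →
  MM B z = 6 → MM B w = 6 → MM B v = 6 →
  (∀ u, u ≠ x → u ≠ y → u ≠ z → u ≠ w → u ≠ v → MM B u = 8) →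
  aa B {x, y, z, w, v} 0 + aa B {x, y, z, w, v} 3 + 3 * aa B {x, y, z, w, v} 4 = 1 → False

/-- stage X: one point `MM = 0`, four points `MM = 6`, all others `MM = 8`, independent -/
def StX : Prop := ∀ B, Best B → Ind B → ∀ x z w v t : Fin 13,
  x ≠ z → x ≠ w → x ≠ v → x ≠ t → z ≠ w → z ≠ v → z ≠ t → w ≠ v → w ≠ t → v ≠ t →
  MM B x = 0 → MM B z = 6 → MM B w = 6 → MM B v = 6 → MM B t = 6 →
  (∀ u, u ≠ x → u ≠ z → u ≠ w → u ≠ v → u ≠ t → MM B u = 8) →
  aa B {x, z, w, v, t} 0 + aa B {x, z, w, v, t} 3 + 3 * aa B {x, z, w, v, t} 4 = 1 → False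

end Pool.Agent.Helper4.CV
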