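import Pool.Agent.Helper4.CV.Top

/-!
MP_8ee768_co (project TH-Y'), TOP with edges between light points.
-/

set_option autoImplicit false

namespace Pool.Agent.Helper4.CV

open Finset
open Pool.Agent.Helper89.CV (OddCover)
open Pool.Agent.Helper97.CV
open Pool.Agent.Helper82.TY (Best exists_best)

section

variable {B : Finset (Finset (Fin 13))}

theorem mm_le_MM (B : Finset (Finset (Fin 13))) {x y : Fin 13} (hxy : x ≠ y) :
    mm B x y ≤ MM B x := by
  unfold MM
  refine single_le_sum (f := fun v => mm B x v) (fun _ _ => Nat.zero_le _) ?_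
  rw [mem_compl, mem_singleton]
  exact hxy.symm

/-- a light point has at most one edge to light points -/
theorem Mat.deg (hM : Mat B) {L : Finset (Fin 13)} (hL : ∀ x ∈ L, MM B x ≤ 6) {x : Fin 13}
    (hx : x ∈ L) : ∑ y ∈ L.erase x, mm B x y ≤ 1 := by
  by_cases h : ∃ y ∈ L.erase x, 1 ≤ mm B x y
  · obtain ⟨y, hy, h1⟩ := h
    rw [mem_erase] at hy
    rw [sum_eq_single y]
    · exact hM.two x y hy.1.symm (hL x hx) (hL y hy.2)
    · intro z hz hzy
      rw [mem_erase] at hz
      exact hM.path x y z hy.1.symm hz.1.symm hzy.symm (hL x hx) (hL y hy.2) (hL z hz.2) h1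
    · intro h2
      exact absurd (mem_erase.2 hy) h2
  · push Not at h
    rw [sum_eq_zero fun y hy => by have := h y hy; omega]
    exact Nat.zero_le _

/-- `ww` is bounded by the number of light points that can have an edge -/
theorem Mat.ww_le (hM : Mat B) {L : Finset (Fin 13)} (hL : ∀ x ∈ L, MM B x ≤ 6)
    (p : Fin 13 → Prop) [DecidablePred p]
    (hp : ∀ x ∈ L, ¬ p x → ∀ y ∈ L, x ≠ y → mm B x y = 0) :
    ww B L L ≤ (L.filter p).card := by
  unfold ww
  rw [card_filter]
  refine sum_le_sum fun x hx => ?_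
  by_cases h : p x
  · rw [if_pos h]
    exact hM.deg hL hx
  · rw [if_neg h, sum_eq_zero fun y hy => hp x hx h y (mem_of_mem_erase hy)
      (ne_of_mem_erase hy).symm]

theorem eq_zero_of_ww {L : Finset (Fin 13)} (h : ww B L L = 0) {x y : Fin 13} (hx : x ∈ L)
    (hy : y ∈ L) (hxy : x ≠ y) : mm B x y = 0 := by
  unfold ww at h
  rw [sum_eq_zero_iff] at h
  have h1 := h x hx
  rw [sum_eq_zero_iff] at h1
  exact h1 y (mem_erase.2 ⟨hxy.symm, hy⟩)

theorem exists_of_ww {L : Finset (Fin 13)} (h : ww B L L ≠ 0) :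
    ∃ x ∈ L, ∃ y ∈ L, x ≠ y ∧ 1 ≤ mm B x y := by
  by_contra hcon
  push Not at hcon
  apply h
  unfold ww
  refine sum_eq_zero fun x hx => sum_eq_zero fun y hy => ?_
  have := hcon x hx y (mem_of_mem_erase hy) (ne_of_mem_erase hy).symm
  omega

/-- the edges from light to heavy points -/
theorem cross_le (hodd : OddCover B) :
    ∑ z ∈ univ.filter (fun z => MM B z ≤ 6), MM B z ≤
      ww B (univ.filter fun z => MM B z ≤ 6) (univ.filter fun z => MM B z ≤ 6) +
        ∑ z ∈ univ.filter (fun z => 8 ≤ MM B z), MM B z := by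
  have h1 := ww_split B (univ.filter fun z => MM B z ≤ 6)
  have h2 := ww_comm B (univ.filter fun z => MM B z ≤ 6)
  have h3 := ww_split B (univ.filter fun z => MM B z ≤ 6)ᶜ
  rw [compl_compl] at h3
  have h4 : (univ.filter fun z => MM B z ≤ 6)ᶜ = univ.filter fun z => 8 ≤ MM B z := by
    ext z
    rw [mem_compl, mem_filter, mem_filter]
    rcases parity hodd z with h | h | h | h | h
    · simp [h]
    · simp [h]
    · simp [h]
    · simp [h]
    · exact ⟨fun _ => ⟨mem_univ _, h⟩, fun _ h5 => absurd h5.2 (by omega)⟩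
  rw [h4] at h1 h2 h3
  omega

/-- the arithmetic with edges: edges only between points with `MM = 6`, at most two small points -/
theorem arith_edge {n0 n2 n4 n6 h SH S a0 a1 a2 a3 a4 c wv k : ℕ}
    (h13 : n0 + n2 + n4 + n6 + h = 13)
    (hS : S = 2 * n2 + 4 * n4 + 6 * n6 + SH) (hH : 8 * h ≤ SH)
    (hc : 10 * c = 1482 + S) (hodd : c % 2 = 1) (h157 : c ≤ 157)
    (e0 : 4 * (a0 + a1 + a2 + a3 + a4) = 52 + S)
    (e1 : a1 + 2 * a2 + 3 * a3 + 4 * a4 =
      4 * (n0 + n2 + n4 + n6) + (2 * n2 + 4 * n4 + 6 * n6))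
    (e2 : 2 * a2 + 6 * a3 + 12 * a4 =
      (n0 + n2 + n4 + n6) * (n0 + n2 + n4 + n6 - 1) + 3 * wv)
    (hk : wv = 2 * k) (hw : wv ≤ n2 + n4 + n6) (hx : 2 * n2 + 4 * n4 + 6 * n6 ≤ wv + SH)
    (hsm : n0 + n2 + n4 ≤ 2) :
    S = 88 ∧ (n0 = 0 → 2 ≤ n6 ∧ (n2 + n4 = 1 → 3 ≤ n6)) ∧
      (n0 + n2 = 0 → wv ≤ n6 → n4 = 2 ∧ n6 = 4 ∧ wv = 4 ∧ SH = 56 ∧ a0 = 0 ∧ a3 = 0 ∧ a4 = 0) := by
  have e3 : 4 * (a0 + a3 + 3 * a4) + 4 * (4 * (n0 + n2 + n4 + n6) + (2 * n2 + 4 * n4 + 6 * n6)) =
      52 + S + 2 * ((n0 + n2 + n4 + n6) * (n0 + n2 + n4 + n6 - 1)) + 6 * wv := by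
    generalize (n0 + n2 + n4 + n6) * (n0 + n2 + n4 + n6 - 1) = C at *
    omega
  clear e1 e0 e2
  have h0 : n0 ≤ 2 := by omega
  have h2 : n2 ≤ 2 := by omega
  have h4 : n4 ≤ 2 := by omega
  have h6 : n6 ≤ 13 := by omega
  have hS' : S = 88 ∨ S ≤ 68 := by omega
  interval_cases n0 <;> interval_cases n2 <;> first | (exfalso; omega) | interval_cases n4 <;>
    first | (exfalso; omega) | interval_cases n6 <;>
      first | (exfalso; omega) | (refine ⟨by omega, by omega, ?_⟩; omega)

theorem light_pos_card (hB : OddCover B) :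
    ((univ.filter fun z => MM B z ≤ 6).filter fun z => MM B z ≠ 0).card =
      nn B 2 + nn B 4 + nn B 6 := by
  rw [nn_eq, nn_eq, nn_eq, filter_filter, card_filter, ← sum_add_distrib, ← sum_add_distrib]
  refine sum_congr rfl fun z _ => ?_
  rcases parity hB z with h | h | h | h | h
  · simp [h]
  · simp [h]
  · simp [h]
  · simp [h]
  · rw [if_neg (by omega), if_neg (by omega), if_neg (by omega), if_neg (by omega)]

theorem light_six_card (B : Finset (Finset (Fin 13))) :
    ((univ.filter fun z => MM B z ≤ 6).filter fun z => MM B z = 6).card = nn B 6 := by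
  unfold nn
  rw [filter_filter]
  congr 1
  ext z
  simp only [mem_filter, mem_univ, true_and]
  omega

theorem NoS.ww_le (hodd : OddCover B) (hM : Mat B) (hN : NoS B) :
    ww B (univ.filter fun z => MM B z ≤ 6) (univ.filter fun z => MM B z ≤ 6) ≤ nn B 6 := by
  rw [← light_six_card B]
  refine hM.ww_le (fun x hx => (mem_filter.1 hx).2) (fun z => MM B z = 6) ?_
  intro x hx h y hy hxy
  have h1 := (mem_filter.1 hx).2
  have h2 := (mem_filter.1 hy).2
  obtain ⟨k, hk⟩ := MM_even hodd x
  exact hN x y hxy (by omega) h2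

/-- everything the counting gives if there are at most two small points -/
theorem facts (hB : Best B) (hM : Mat B)
    (hs : ¬ 3 ≤ (univ.filter fun z => MM B z ≤ 4).card) :
    ∑ z, MM B z = 88 ∧ (nn B 0 = 0 → 2 ≤ nn B 6 ∧ (nn B 2 + nn B 4 = 1 → 3 ≤ nn B 6)) ∧
      (nn B 0 + nn B 2 = 0 →
        ww B (univ.filter fun z => MM B z ≤ 6) (univ.filter fun z => MM B z ≤ 6) ≤ nn B 6 →
        nn B 4 = 2 ∧ nn B 6 = 4 ∧
        ww B (univ.filter fun z => MM B z ≤ 6) (univ.filter fun z => MM B z ≤ 6) = 4 ∧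
        ∑ z ∈ univ.filter (fun z => 8 ≤ MM B z), MM B z = 56 ∧
        aa B (univ.filter fun z => MM B z ≤ 6) 0 = 0 ∧
        aa B (univ.filter fun z => MM B z ≤ 6) 3 = 0 ∧
        aa B (univ.filter fun z => MM B z ≤ 6) 4 = 0) := by
  have hodd := hB.odd
  have hc := ten_card hodd
  obtain ⟨t, ht⟩ := hodd.odd_card
  have hL := light_card hodd
  have hLs := light_sum hodd
  have hsm := small_card hodd
  have e0 := aa_zero hodd (univ.filter fun z => MM B z ≤ 6)
  have e1 := aa_one hodd (univ.filter fun z => MM B z ≤ 6)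
  have e2 := aa_two hodd (univ.filter fun z => MM B z ≤ 6)
  have hev := ww_even B (univ.filter fun z => MM B z ≤ 6)
  have hcr := cross_le hodd
  have hw : ww B (univ.filter fun z => MM B z ≤ 6) (univ.filter fun z => MM B z ≤ 6) ≤
      nn B 2 + nn B 4 + nn B 6 := by
    rw [← light_pos_card hodd]
    refine hM.ww_le (fun x hx => (mem_filter.1 hx).2) (fun z => MM B z ≠ 0) ?_
    intro x _ h y _ hxy
    have h1 := mm_le_MM B hxy
    have h2 : MM B x = 0 := not_not.1 h
    omega
  rw [hL] at e2
  rw [hL, hLs] at e1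
  rw [hLs] at hcr
  have hss := sum_split hodd
  rw [hLs] at hss
  obtain ⟨k, hk⟩ := hev
  exact arith_edge (card_split hodd) hss (heavy_sum B) hc (by omega) hB.le e0 e1 e2
    (k := k) (by omega) hw hcr (by omega)

theorem mem_light {z : Fin 13} : z ∈ univ.filter (fun z => MM B z ≤ 6) ↔ MM B z ≤ 6 := by
  rw [mem_filter]
  exact ⟨fun h => h.2, fun h => ⟨mem_univ _, h⟩⟩

/-- stages B1: no edge between a small and a light point -/
theorem noS_of (h1a : StB1a) (h1b : StB1b) (hB : Best B) (hM : Mat B) : NoS B := by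
  have hodd := hB.odd
  -- the ordered form
  have key : ∀ x y : Fin 13, x ≠ y → MM B x ≤ 4 → MM B x ≤ MM B y → MM B y ≤ 6 →
      mm B x y = 0 := by
    intro x y hxy hx hle hy
    by_contra h0
    have h1 := hM.two x y hxy (by omega) hy
    have hm : mm B x y = 1 := by omega
    have hx1 : 1 ≤ MM B x := by
      have := mm_le_MM B hxy
      omega
    have hc : 0 < ((univ.erase x).erase y : Finset (Fin 13)).card := by
      rw [card_erase_of_mem (mem_erase.2 ⟨hxy.symm, mem_univ y⟩), card_erase_of_mem (mem_univ x),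
        card_univ, Fintype.card_fin]
      omega
    obtain ⟨z, hz, hmin⟩ := exists_min_image ((univ.erase x).erase y) (fun z => MM B z)
      (card_pos.1 hc)
    rw [mem_erase, mem_erase] at hz
    have hmin' : ∀ u, u ≠ x → u ≠ y → MM B z ≤ MM B u := fun u hux huy =>
      hmin u (mem_erase.2 ⟨huy, mem_erase.2 ⟨hux, mem_univ u⟩⟩)
    by_cases hz4 : MM B z ≤ 4
    · exact h1a B hB hM x y z hxy hz.2.1.symm hz.1.symm hm hx hle hy hz4 hmin'
    · have hz6 : 6 ≤ MM B z := by
        obtain ⟨k, hk⟩ := MM_even hodd z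
        omega
      have hother : ∀ u, u ≠ x → u ≠ y → 6 ≤ MM B u := fun u h2 h3 => hz6.trans (hmin' u h2 h3)
      have hsub : (univ.filter fun z => MM B z ≤ 4) ⊆ {x, y} := by
        intro u hu
        rw [mem_filter] at hu
        rw [mem_insert, mem_singleton]
        by_contra h
        rw [not_or] at h
        have := hother u h.1 h.2
        omega
      have hs2 : (univ.filter fun z => MM B z ≤ 4).card ≤ 2 :=
        (card_le_card hsub).trans card_le_two
      have hsm := small_card hodd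
      obtain ⟨hS, hf, _⟩ := facts hB hM (by omega)
      have hn0 : nn B 0 = 0 := by
        unfold nn
        rw [card_eq_zero, filter_eq_empty_iff]
        intro u _ hu
        by_cases hux : u = x
        · subst hux; omega
        · by_cases huy : u = y
          · subst huy; omega
          · have := hother u hux huy
            omega
      obtain ⟨hf2, hf3⟩ := hf hn0
      have h6 : 1 < ((univ.filter fun z => MM B z = 6).erase y).card := by
        by_cases hy6 : MM B y = 6
        · have h7 : (univ.filter fun z => MM B z ≤ 4).card = 1 := by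
            rw [card_eq_one]
            refine ⟨x, ?_⟩
            ext u
            rw [mem_filter, mem_singleton]
            constructor
            · rintro ⟨_, hu⟩
              have h8 := hsub (mem_filter.2 ⟨mem_univ u, hu⟩)
              rw [mem_insert, mem_singleton] at h8
              rcases h8 with h8 | h8
              · exact h8
              · subst h8; omega
            · rintro rfl
              exact ⟨mem_univ _, hx⟩
          have h8 := hf3 (by omega)
          rw [card_erase_of_mem (mem_nn.2 hy6)]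
          unfold nn at h8
          omega
        · rw [erase_eq_of_notMem fun h => hy6 (mem_nn.1 h)]
          unfold nn at hf2
          omega
      obtain ⟨z, hz, w, hw, hzw⟩ := one_lt_card.1 h6
      rw [mem_erase] at hz hw
      have hz' := mem_nn.1 hz.2
      have hw' := mem_nn.1 hw.2
      have q1 : z ≠ x := by rintro rfl; omega
      have q2 : w ≠ x := by rintro rfl; omega
      exact h1b B hB hM hS x y hxy hm hx hle hy hother z w hzw q1 hz.1 q2 hw.1 hz' hw'
  intro x y hxy hx hy
  rcases le_total (MM B x) (MM B y) with h | h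
  · exact key x y hxy hx h hy
  · rw [mm_comm]
    exact key y x hxy.symm (h.trans hx) h (hx.trans (by norm_num))

theorem card_six {a b c d e f : Fin 13} (h1 : a ≠ b) (h2 : a ≠ c) (h3 : a ≠ d) (h4 : a ≠ e)
    (h5 : a ≠ f) (g1 : b ≠ c) (g2 : b ≠ d) (g3 : b ≠ e) (g4 : b ≠ f) (k1 : c ≠ d) (k2 : c ≠ e)
    (k3 : c ≠ f) (l1 : d ≠ e) (l2 : d ≠ f) (m1 : e ≠ f) :
    ({a, b, c, d, e, f} : Finset (Fin 13)).card = 6 := by
  rw [card_insert_of_notMem, card_five g1 g2 g3 g4 k1 k2 k3 l1 l2 m1]
  simp only [mem_insert, mem_singleton, not_or]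
  exact ⟨h1, h2, h3, h4, h5⟩

/-- the case of no point with `MM ≤ 2`, with an edge -/
theorem case_T (hT : StT) (hB : Best B) (hM : Mat B) (hN : NoS B) (hS : ∑ z, MM B z = 88)
    (h4 : nn B 4 = 2) (h6 : nn B 6 = 4)
    (hlc : (univ.filter fun z => MM B z ≤ 6).card = 6)
    (hww : ww B (univ.filter fun z => MM B z ≤ 6) (univ.filter fun z => MM B z ≤ 6) = 4)
    (h56 : ∑ z ∈ univ.filter (fun z => 8 ≤ MM B z), MM B z ≤
      8 * (univ.filter fun z => 8 ≤ MM B z).card)
    (ha0 : aa B (univ.filter fun z => MM B z ≤ 6) 0 = 0)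
    (ha3 : aa B (univ.filter fun z => MM B z ≤ 6) 3 = 0)
    (ha4 : aa B (univ.filter fun z => MM B z ≤ 6) 4 = 0) : False := by
  have hodd := hB.odd
  obtain ⟨x, z, hxz, hx, hz⟩ := nn_two (B := B) (i := 4) (by omega)
  obtain ⟨y1, hy1, y2, hy2, h12, hm⟩ := exists_of_ww (B := B)
    (L := univ.filter fun z => MM B z ≤ 6) (by omega)
  rw [mem_light] at hy1 hy2
  have six : ∀ u v : Fin 13, u ≠ v → MM B u ≤ 6 → MM B v ≤ 6 → 1 ≤ mm B u v → MM B u = 6 := by
    intro u v huv hu hv h
    by_contra h7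
    obtain ⟨k, hk⟩ := MM_even hodd u
    have := hN u v huv (by omega) hv
    omega
  have hy16 := six y1 y2 h12 hy1 hy2 hm
  have hy26 := six y2 y1 h12.symm hy2 hy1 (by rw [mm_comm]; exact hm)
  have hm1 : mm B y1 y2 = 1 := by
    have := hM.two y1 y2 h12 hy1 hy2
    omega
  -- the other two
  have hc : 1 < (((univ.filter fun z => MM B z = 6).erase y1).erase y2).card := by
    rw [card_erase_of_mem (mem_erase.2 ⟨h12.symm, mem_nn.2 hy26⟩),
      card_erase_of_mem (mem_nn.2 hy16)]
    unfold nn at h6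
    omega
  obtain ⟨y3, hy3, y4, hy4, h34⟩ := one_lt_card.1 hc
  rw [mem_erase, mem_erase] at hy3 hy4
  have hy36 := mem_nn.1 hy3.2.2
  have hy46 := mem_nn.1 hy4.2.2
  have h13 : y1 ≠ y3 := hy3.2.1.symm
  have h14 : y1 ≠ y4 := hy4.2.1.symm
  have h23 : y2 ≠ y3 := hy3.1.symm
  have h24 : y2 ≠ y4 := hy4.1.symm
  have x1 : x ≠ y1 := by rintro rfl; omega
  have x2 : x ≠ y2 := by rintro rfl; omega
  have x3 : x ≠ y3 := by rintro rfl; omega
  have x4 : x ≠ y4 := by rintro rfl; omega
  have z1 : z ≠ y1 := by rintro rfl; omega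
  have z2 : z ≠ y2 := by rintro rfl; omega
  have z3 : z ≠ y3 := by rintro rfl; omega
  have z4 : z ≠ y4 := by rintro rfl; omega
  have e13 : mm B y1 y3 = 0 := hM.path y1 y2 y3 h12 h13 h23 hy1 hy2 (by omega) hm
  have e14 : mm B y1 y4 = 0 := hM.path y1 y2 y4 h12 h14 h24 hy1 hy2 (by omega) hm
  have e23 : mm B y2 y3 = 0 :=
    hM.path y2 y1 y3 h12.symm h23 h13 hy2 hy1 (by omega) (by rw [mm_comm]; exact hm)
  have e24 : mm B y2 y4 = 0 :=
    hM.path y2 y1 y4 h12.symm h24 h14 hy2 hy1 (by omega) (by rw [mm_comm]; exact hm)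
  have hL : ({x, z, y1, y2, y3, y4} : Finset (Fin 13)) = univ.filter fun z => MM B z ≤ 6 := by
    apply eq_of_subset_of_card_le
    · intro u hu
      simp only [mem_insert, mem_singleton] at hu
      rw [mem_filter]
      rcases hu with rfl | rfl | rfl | rfl | rfl | rfl
      · exact ⟨mem_univ _, by omega⟩
      · exact ⟨mem_univ _, by omega⟩
      · exact ⟨mem_univ _, by omega⟩
      · exact ⟨mem_univ _, by omega⟩
      · exact ⟨mem_univ _, by omega⟩
      · exact ⟨mem_univ _, by omega⟩
    · rw [hlc, card_six hxz x1 x2 x3 x4 z1 z2 z3 z4 h12 h13 h14 h23 h24 h34]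
  have e34 : mm B y3 y4 = 1 := by
    have h7 := hM.two y3 y4 h34 (by omega) (by omega)
    by_contra h8
    have h0 : mm B y3 y4 = 0 := by omega
    have h9 : ww B (univ.filter fun z => MM B z ≤ 6) (univ.filter fun z => MM B z ≤ 6) ≤
        ((univ.filter fun z => MM B z ≤ 6).filter fun u => u = y1 ∨ u = y2).card := by
      refine hM.ww_le (fun x hx => (mem_filter.1 hx).2) (fun u => u = y1 ∨ u = y2) ?_
      intro u hu hup v hv huv
      rw [not_or] at hup
      have hu' := mem_light.1 hu
      have hv' := mem_light.1 hv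
      by_cases hus : MM B u ≤ 4
      · exact hN u v huv hus hv'
      by_cases hvs : MM B v ≤ 4
      · rw [mm_comm]
        exact hN v u huv.symm hvs hu'
      rw [← hL] at hu hv
      simp only [mem_insert, mem_singleton] at hu hv
      rcases hu with rfl | rfl | rfl | rfl | rfl | rfl
      · exact absurd hx.le hus
      · exact absurd hz.le hus
      · exact absurd rfl hup.1
      · exact absurd rfl hup.2
      · rcases hv with rfl | rfl | rfl | rfl | rfl | rfl
        · exact absurd hx.le hvs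
        · exact absurd hz.le hvs
        · rw [mm_comm]; exact e13
        · rw [mm_comm]; exact e23
        · exact absurd rfl huv
        · exact h0
      · rcases hv with rfl | rfl | rfl | rfl | rfl | rfl
        · exact absurd hx.le hvs
        · exact absurd hz.le hvs
        · rw [mm_comm]; exact e14
        · rw [mm_comm]; exact e24
        · rw [mm_comm]; exact h0
        · exact absurd rfl huv
    have h10 : ((univ.filter fun z => MM B z ≤ 6).filter fun u => u = y1 ∨ u = y2).card ≤ 2 := by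
      refine (card_le_card (t := {y1, y2}) ?_).trans card_le_two
      intro u hu
      rw [mem_filter] at hu
      rw [mem_insert, mem_singleton]
      exact hu.2
    omega
  refine hT B hB hM hN hS x z y1 y2 y3 y4 hxz h12 h13 h14 h23 h24 h34 hx hz hy16 hy26 hy36 hy46
    ?_ hm1 e34 e13 e14 e23 e24 (by rw [hL]; exact ha0) (by rw [hL]; exact ha3)
    (by rw [hL]; exact ha4)
  intro u g1 g2 g3 g4 g5 g6
  apply heavy_eq h56
  have h6 : u ∉ univ.filter fun z => MM B z ≤ 6 := by
    rw [← hL]
    simp only [mem_insert, mem_singleton, not_or]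
    exact ⟨g1, g2, g3, g4, g5, g6⟩
  rw [mem_light] at h6
  rcases parity hodd u with h7 | h7 | h7 | h7 | h7
  · exact absurd (by omega) h6
  · exact absurd (by omega) h6
  · exact absurd (by omega) h6
  · exact absurd (by omega) h6
  · exact h7

/-- TOP for a best cover -/
theorem top_best (hD : StD) (hA : StA) (h1a : StB1a) (h1b : StB1b) (hE : StE) (hT : StT)
    (hF : StF) (h00 : St00) (h02 : St02) (h04 : St04) (h22 : St22) (h24 : St24) (hX : StX)
    (hB : Best B) : False := by
  have hodd := hB.odd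
  have hM : Mat B := by
    refine ⟨fun x y hxy hx hy => ?_, fun x y z hxy hxz hyz hx hy hz h1 => ?_⟩
    · by_contra h
      exact hD B hB x y hxy hx hy (by omega)
    · by_contra h
      exact hA B hB x y z hxy hxz hyz hx hy hz h1 (by omega)
  have hN : NoS B := noS_of h1a h1b hB hM
  by_cases hs : 3 ≤ (univ.filter fun z => MM B z ≤ 4).card
  · exact hF B hB hM hN hs
  obtain ⟨hS, _, hf⟩ := facts hB hM hs
  have hsm := small_card hodd
  by_cases hw : ww B (univ.filter fun z => MM B z ≤ 6) (univ.filter fun z => MM B z ≤ 6) = 0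
  · have hI : Ind B := fun x y hxy hx hy =>
      eq_zero_of_ww hw (mem_light.2 hx) (mem_light.2 hy) hxy
    exact top_ind h00 h02 h04 h22 h24 hX hB hI hs
  · obtain ⟨y, hy, z, hz, hyz, hm⟩ := exists_of_ww hw
    rw [mem_light] at hy hz
    have six : ∀ u v : Fin 13, u ≠ v → MM B u ≤ 6 → MM B v ≤ 6 → 1 ≤ mm B u v →
        MM B u = 6 := by
      intro u v huv hu hv h
      by_contra h7
      obtain ⟨k, hk⟩ := MM_even hodd u
      have := hN u v huv (by omega) hv
      omega
    have hy6 := six y z hyz hy hz hm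
    have hz6 := six z y hyz.symm hz hy (by rw [mm_comm]; exact hm)
    have hm1 : mm B y z = 1 := by
      have := hM.two y z hyz hy hz
      omega
    by_cases h02' : nn B 0 + nn B 2 = 0
    · obtain ⟨h4, h6, hw4, h56, ha0, ha3, ha4⟩ := hf h02' (hN.ww_le hodd hM)
      have hlc := light_card hodd
      have hcs := card_split hodd
      exact case_T hT hB hM hN hS h4 h6 (by omega) hw4 (by omega) ha0 ha3 ha4
    · obtain ⟨x, _, hx⟩ :=
        exists_min_image (univ : Finset (Fin 13)) (fun z => MM B z) ⟨0, mem_univ 0⟩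
      have hx2 : MM B x ≤ 2 := by
        by_cases h0 : nn B 0 = 0
        · obtain ⟨u, hu⟩ := nn_one (B := B) (i := 2) (by omega)
          exact hu ▸ hx u (mem_univ u)
        · obtain ⟨u, hu⟩ := nn_one (B := B) (i := 0) (by omega)
          have := hx u (mem_univ u)
          omega
      have hc1 : ((univ.filter fun z => MM B z ≤ 4).erase x).card ≤ 1 := by
        rw [card_erase_of_mem (mem_filter.2 ⟨mem_univ x, by omega⟩)]
        omega
      obtain ⟨s, hs1⟩ := card_le_one_iff_subset_singleton.1 hc1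
      refine hE B hB hM hN hS x y z hyz (fun u => hx u (mem_univ u)) hx2 hy6 hz6 hm1 s ?_
      intro u hux hus
      by_contra h7
      obtain ⟨k, hk⟩ := MM_even hodd u
      have h8 := hs1 (mem_erase.2 ⟨hux, mem_filter.2 ⟨mem_univ u, by omega⟩⟩)
      exact hus (mem_singleton.1 h8)

end

/-- TOP: the stage statements exclude every odd cover with at most 157 blocks -/
theorem top (hD : StD) (hA : StA) (h1a : StB1a) (h1b : StB1b) (hE : StE) (hT : StT)
    (hF : StF) (h00 : St00) (h02 : St02) (h04 : St04) (h22 : St22) (h24 : St24) (hX : StX) :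
    ∀ B : Finset (Finset (Fin 13)), OddCover B → B.card ≤ 157 → False := by
  intro B hB hc
  obtain ⟨B', hB'⟩ := exists_best ⟨B, hB, hc⟩
  exact top_best hD hA h1a h1b hE hT hF h00 h02 h04 h22 h24 hX hB'

/-- S10098 from the stages -/
theorem S10098_of_stages (hD : StD) (hA : StA) (h1a : StB1a) (h1b : StB1b) (hE : StE)
    (hT : StT) (hF : StF) (h00 : St00) (h02 : St02) (h04 : St04) (h22 : St22) (h24 : St24)
    (hX : StX) :
    ¬ (∀ k : ℕ, Even k → 2 ≤ k → ∀ n : ℕ,
      ∀ H : Finset (Finset (Fin n)),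
        (∀ e ∈ H, e.card = k) →
        (∀ S : Finset (Fin n), S.card = k + 1 → ¬ (S.powersetCard k ⊆ H)) →
        ∃ C : Finset (Finset (Fin n)),
          (∀ e ∈ C, e.card = k) ∧
          (∀ S : Finset (Fin n), S.card = k + 1 →
            Even ((C.filter (fun e => e ⊆ S)).card)) ∧
          H.card ≤ C.card) :=
  Pool.Agent.Helper89.CV.S10098_of_no_odd_cover
    (top hD hA h1a h1b hE hT hF h00 h02 h04 h22 h24 hX)

end Pool.Agent.Helper4.CV
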