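import Pool.Agent.Helper97.CV.Count

/-!
MP_8ee768_co (thread TH-Y'), T4: quad counts. For a set `L` of points let `a i` be the total excess
of the quads meeting `L` in exactly `i` points. Then sum a = 13 + S/4, sum i a_i = 4 l + S_L and
sum C(i,2) a_i = C(l,2) + 3 w, where w is the total pair excess inside `L`.
-/

set_option autoImplicit false

namespace Pool.Agent.Helper4.CV

open Finset
open Pool.Agent.Helper89.CV (OddCover)
open Pool.Agent.Helper97.CV

/-- total excess of the quads meeting `L` in `i` points -/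
def aa (B : Finset (Finset (Fin 13))) (L : Finset (Fin 13)) (i : ℕ) : ℕ :=
  ∑ q ∈ quads.filter (fun q => (q ∩ L).card = i), ex B q

/-- total pair excess between `X` and `Y` -/
def ww (B : Finset (Finset (Fin 13))) (X Y : Finset (Fin 13)) : ℕ :=
  ∑ x ∈ X, ∑ y ∈ Y.erase x, mm B x y

theorem sum_aa (B : Finset (Finset (Fin 13))) (L : Finset (Fin 13)) (f : ℕ → ℕ) :
    ∑ q ∈ quads, f (q ∩ L).card * ex B q =
      f 0 * aa B L 0 + f 1 * aa B L 1 + f 2 * aa B L 2 + f 3 * aa B L 3 + f 4 * aa B L 4 := by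
  have h1 : ∀ q ∈ quads, (q ∩ L).card ∈ range 5 := by
    intro q hq
    rw [mem_range]
    have h2 := card_le_card (inter_subset_left (s₁ := q) (s₂ := L))
    rw [mem_quads.1 hq] at h2
    omega
  rw [← sum_fiberwise_of_maps_to h1]
  have h3 : ∀ i, ∑ q ∈ quads.filter (fun q => (q ∩ L).card = i), f (q ∩ L).card * ex B q =
      f i * aa B L i := by
    intro i
    unfold aa
    rw [mul_sum]
    refine sum_congr rfl fun q hq => ?_
    rw [(mem_filter.1 hq).2]
  simp only [sum_range_succ, range_zero, sum_empty, h3, zero_add]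

theorem sum_Lam_point (B : Finset (Finset (Fin 13))) (L : Finset (Fin 13)) :
    ∑ x ∈ L, Lam B {x} = ∑ q ∈ quads, (q ∩ L).card * ex B q := by
  unfold Lam LamW
  have h1 : ∀ x ∈ L, ∑ q ∈ quads.filter (fun q => {x} ⊆ q), ex B q =
      ∑ q ∈ quads, if x ∈ q then ex B q else 0 := by
    intro x _
    rw [sum_filter]
    simp only [singleton_subset_iff]
  rw [sum_congr rfl h1, sum_comm]
  refine sum_congr rfl fun q _ => ?_
  rw [← sum_filter, sum_const, smul_eq_mul]
  congr 2
  ext x
  simp only [mem_filter, mem_inter]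
  tauto

theorem sum_Lam_pair (B : Finset (Finset (Fin 13))) (L : Finset (Fin 13)) :
    ∑ x ∈ L, ∑ y ∈ L.erase x, Lam B {x, y} =
      ∑ q ∈ quads, ((q ∩ L).card * ((q ∩ L).card - 1)) * ex B q := by
  unfold Lam LamW
  have h1 : ∀ x ∈ L, ∀ y ∈ L.erase x, ∑ q ∈ quads.filter (fun q => {x, y} ⊆ q), ex B q =
      ∑ q ∈ quads, if x ∈ q ∧ y ∈ q then ex B q else 0 := by
    intro x _ y _
    rw [sum_filter]
    simp only [insert_subset_iff, singleton_subset_iff]
  rw [sum_congr rfl fun x hx => sum_congr rfl (h1 x hx)]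
  have h2 : ∀ x ∈ L, ∑ y ∈ L.erase x, ∑ q ∈ quads, (if x ∈ q ∧ y ∈ q then ex B q else 0) =
      ∑ q ∈ quads, if x ∈ q then ((q ∩ L).card - 1) * ex B q else 0 := by
    intro x hx
    rw [sum_comm]
    refine sum_congr rfl fun q _ => ?_
    by_cases hxq : x ∈ q
    · simp only [hxq, true_and, if_true]
      rw [← sum_filter, sum_const, smul_eq_mul]
      congr 1
      have h3 : (L.erase x).filter (fun y => y ∈ q) = (q ∩ L).erase x := by
        ext y
        simp only [mem_filter, mem_erase, mem_inter]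
        tauto
      rw [h3, card_erase_of_mem (mem_inter.2 ⟨hxq, hx⟩)]
    · simp [hxq]
  rw [sum_congr rfl h2, sum_comm]
  refine sum_congr rfl fun q _ => ?_
  rw [← sum_filter, sum_const, smul_eq_mul, mul_assoc]
  congr 2
  ext x
  simp only [mem_filter, mem_inter]
  tauto

/-- the three counting identities -/
theorem aa_zero {B : Finset (Finset (Fin 13))} (hB : OddCover B) (L : Finset (Fin 13)) :
    4 * (aa B L 0 + aa B L 1 + aa B L 2 + aa B L 3 + aa B L 4) = 52 + ∑ z, MM B z := by
  have h := sum_aa B L (fun _ => 1)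
  simp only [one_mul] at h
  have h1 : Lam B ∅ = ∑ q ∈ quads, ex B q := by
    unfold Lam LamW
    rw [filter_true_of_mem fun q _ => empty_subset q]
  rw [← four_Lam_empty hB, h1, h]

theorem aa_one {B : Finset (Finset (Fin 13))} (hB : OddCover B) (L : Finset (Fin 13)) :
    aa B L 1 + 2 * aa B L 2 + 3 * aa B L 3 + 4 * aa B L 4 = 4 * L.card + ∑ z ∈ L, MM B z := by
  have h := sum_aa B L (fun i => i)
  have h1 := sum_Lam_point B L
  rw [h] at h1
  simp only [zero_mul, zero_add, one_mul] at h1
  rw [← h1, sum_congr rfl fun z _ => Lam_point hB z, sum_add_distrib, sum_const, smul_eq_mul,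
    mul_comm]

theorem aa_two {B : Finset (Finset (Fin 13))} (hB : OddCover B) (L : Finset (Fin 13)) :
    2 * aa B L 2 + 6 * aa B L 3 + 12 * aa B L 4 = L.card * (L.card - 1) + 3 * ww B L L := by
  have h := sum_aa B L (fun i => i * (i - 1))
  have h1 := sum_Lam_pair B L
  rw [h] at h1
  norm_num at h1
  have h2 : ∑ x ∈ L, ∑ y ∈ L.erase x, Lam B {x, y} = L.card * (L.card - 1) + 3 * ww B L L := by
    unfold ww
    have h3 : ∀ x ∈ L, ∑ y ∈ L.erase x, Lam B {x, y} =
        (L.card - 1) + 3 * ∑ y ∈ L.erase x, mm B x y := by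
      intro x hx
      have h4 : ∀ y ∈ L.erase x, Lam B {x, y} = 1 + 3 * mm B x y := fun y hy =>
        Lam_pair hB (ne_of_mem_erase hy).symm
      rw [sum_congr rfl h4, sum_add_distrib, sum_const, smul_eq_mul, mul_one,
        card_erase_of_mem hx, ← mul_sum]
    rw [sum_congr rfl h3, sum_add_distrib, sum_const, smul_eq_mul, ← mul_sum]
  rw [← h2, h1]

/-- `w` inside `L` plus `w` from `L` to the rest is the sum of the point excesses -/
theorem ww_split (B : Finset (Finset (Fin 13))) (L : Finset (Fin 13)) :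
    ww B L L + ww B L Lᶜ = ∑ z ∈ L, MM B z := by
  unfold ww MM
  rw [← sum_add_distrib]
  refine sum_congr rfl fun x hx => ?_
  rw [← sum_union]
  · refine sum_congr ?_ fun _ _ => rfl
    ext y
    simp only [mem_union, mem_erase, mem_compl, mem_singleton]
    constructor
    · rintro (⟨h, _⟩ | ⟨h, _⟩) <;> exact h
    · intro h
      by_cases hy : y ∈ L
      · exact Or.inl ⟨h, hy⟩
      · exact Or.inr ⟨h, hy⟩
  · rw [disjoint_left]
    intro y h1 h2
    exact (mem_compl.1 (mem_of_mem_erase h2)) (mem_of_mem_erase h1)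

theorem ww_comm (B : Finset (Finset (Fin 13))) (L : Finset (Fin 13)) :
    ww B L Lᶜ = ww B Lᶜ L := by
  unfold ww
  have h1 : ∀ x ∈ L, ∑ y ∈ Lᶜ.erase x, mm B x y = ∑ y ∈ Lᶜ, mm B x y := by
    intro x hx
    rw [erase_eq_of_notMem fun h => (mem_compl.1 h) hx]
  have h2 : ∀ x ∈ Lᶜ, ∑ y ∈ L.erase x, mm B x y = ∑ y ∈ L, mm B x y := by
    intro x hx
    rw [erase_eq_of_notMem (mem_compl.1 hx)]
  rw [sum_congr rfl h1, sum_congr rfl h2, sum_comm]
  exact sum_congr rfl fun x _ => sum_congr rfl fun y _ => mm_comm B y x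

theorem ww_even (B : Finset (Finset (Fin 13))) (L : Finset (Fin 13)) : Even (ww B L L) := by
  unfold ww
  induction L using Finset.induction_on with
  | empty => simp
  | insert a s ha ih =>
    rw [sum_insert ha, erase_insert ha]
    have h1 : ∀ x ∈ s, ∑ y ∈ (insert a s).erase x, mm B x y = mm B a x + ∑ y ∈ s.erase x, mm B x y := by
      intro x hx
      have hne : a ≠ x := fun h => ha (h ▸ hx)
      rw [erase_insert_of_ne hne, sum_insert fun h => ha (mem_of_mem_erase h), mm_comm B x a]
    rw [sum_congr rfl h1, sum_add_distrib, ← add_assoc]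
    exact (Even.add ⟨_, rfl⟩ ih)

end Pool.Agent.Helper4.CV
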