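import Pool.Agent.Helper4.CV.TopEdge

/-!
MP_8ee768_co (project TH-Y'): stage D after stage A. `NoP` = no light 2-path (stage A);
`StD2` = the stage statement of D with `NoP` as an additional hypothesis. It replaces `StD`.
-/

set_option autoImplicit false

namespace Pool.Agent.Helper4.CV

open Finset
open Pool.Agent.Helper89.CV (OddCover)
open Pool.Agent.Helper97.CV
open Pool.Agent.Helper82.TY (Best exists_best)

/-- no light 2-path and no light triangle (what stage A gives) -/
def NoP (B : Finset (Finset (Fin 13))) : Prop :=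
  ∀ x y z : Fin 13, x ≠ y → x ≠ z → y ≠ z → MM B x ≤ 6 → MM B y ≤ 6 → MM B z ≤ 6 →
    1 ≤ mm B x y → mm B x z = 0

theorem noP_of (hA : StA) {B : Finset (Finset (Fin 13))} (hB : Best B) : NoP B := by
  intro x y z hxy hxz hyz hx hy hz h1
  by_contra h
  exact hA B hB x y z hxy hxz hyz hx hy hz h1 (by omega)

/-- in a cover without light 2-paths the other neighbours of the ends of an edge are heavy -/
theorem NoP.heavy {B : Finset (Finset (Fin 13))} (hodd : OddCover B) (hN : NoP B)
    {x y z : Fin 13} (hxy : x ≠ y) (hxz : x ≠ z) (hyz : y ≠ z) (hx : MM B x ≤ 6)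
    (hy : MM B y ≤ 6) (h1 : 1 ≤ mm B x y) (h2 : 1 ≤ mm B x z ∨ 1 ≤ mm B y z) : 8 ≤ MM B z := by
  by_contra h
  obtain ⟨k, hk⟩ := MM_even hodd z
  have hz : MM B z ≤ 6 := by omega
  have h3 := hN x y z hxy hxz hyz hx hy hz h1
  have h4 := hN y x z hxy.symm hyz hxz hy hx hz (by rw [mm_comm]; exact h1)
  omega

/-- stage D after stage A: no light pair with excess at least 2 -/
def StD2 : Prop := ∀ B, Best B → NoP B → ∀ x y : Fin 13, x ≠ y → MM B x ≤ 6 → MM B y ≤ 6 →
  2 ≤ mm B x y → False

theorem StD2_of_StD (h : StD) : StD2 := fun B hB _ x y hxy hx hy h1 => h B hB x y hxy hx hy h1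

theorem StD_of_StD2 (hA : StA) (h : StD2) : StD := fun B hB x y hxy hx hy h1 =>
  h B hB (noP_of hA hB) x y hxy hx hy h1

/-- TOP with `StD2` -/
theorem top2 (hA : StA) (hD : StD2) (h1a : StB1a) (h1b : StB1b) (hE : StE) (hT : StT)
    (hF : StF) (h00 : St00) (h02 : St02) (h04 : St04) (h22 : St22) (h24 : St24) (hX : StX) :
    ∀ B : Finset (Finset (Fin 13)), OddCover B → B.card ≤ 157 → False :=
  top (StD_of_StD2 hA hD) hA h1a h1b hE hT hF h00 h02 h04 h22 h24 hX

end Pool.Agent.Helper4.CV
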