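import Pool.Agent.Helper4.CV.Stages2
import Pool.Agent.Helper52.TY.StageA
import Pool.Agent.Helper47.TY.DBatch
import Pool.Agent.Helper49.TY.StageE
import Pool.Agent.Helper30.TY.TDriver
import Pool.Agent.Helper79.CV.FReps
import Pool.Agent.Helper8.TY.BFrame
import Pool.Agent.Helper25.TY.SAgg
import Pool.Agent.Helper89.CV.ZOrb
import Pool.Agent.Helper74.TY.XRoot
import Pool.Agent.Helper16.TY.RunFin
import Pool.Agent.Helper7.TB.Rows
import Pool.Agent.Helper7.TB.Cls
import Pool.Agent.Gen.TY.CF.Fin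

/-!
MP_8ee768_co (project TH-Y'): the composition of all stage drivers, with the concrete tables.
Every hypothesis of `no_cover` is a statement which the kernel modules prove.

`reps` = the 24746 classes with `MM ≤ 6` (helper16), `repsF` = the 466 classes with `MM ≤ 4`
(helper79), `typ`, `nl`, `lane` = the types with more than 19 blocks and their rows (helper7).
-/

set_option autoImplicit false

namespace Pool.Agent.Helper4.CV

open Finset
open Pool.Agent.Helper89.CV (OddCover)
open Pool.Agent.Helper97.CV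
open Pool.Agent.Helper82.TY (Best exists_best)
open Pool.Agent.Helper79.CV
open Pool.Agent.Helper16.TY (reps)
open Pool.Agent.Helper7.TB (typ nl lane cls typ_lt lane_lt)
open Pool.Agent.Helper7.TY (InR FlagL IsoL LSet tableOK_of_flags)

/-- the set of the lanes of a row -/
def rowS (t : ℕ) : Set (Finset (Finset (Fin 13))) := {E | ∃ i < nl t, E = fam 11 4 (lane t i)}

theorem clsOK_self {cap : ℕ} {rs : List ℕ} (h : RootOK cap (fun _ => True) rs) :
    ClsOK cap rs := by
  intro D hD hc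
  obtain ⟨σ, -, r, hr, hσ⟩ := h D hD hc trivial
  obtain ⟨j, hj⟩ := List.mem_iff_getElem?.1 hr
  exact ⟨j, r, hj, σ, hσ⟩

/-- **no cover with at most 157 blocks, from the open module-level statements** -/
theorem no_cover
    -- foundation: the lists (proved in Gen/TY/CLS), the ten counts of cap 6, the four of cap 4
    (hL : Pool.Agent.Helper16.TY.Lists) (hC : Pool.Agent.Helper16.TY.Counts)
    (hCA : Pool.Agent.Helper25.EN.CountA) (hCB : Pool.Agent.Helper25.EN.CountB)
    -- foundation: flags and closure of the rows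
    (hflag : FlagL reps 5074 typ fun t => LSet (nl t) (lane t) (cls t))
    (hiso : IsoL 5074 typ fun t => LSet (nl t) (lane t) (cls t))
    -- A
    (hA : ∀ r ∈ reps, Pool.Agent.Helper52.TY.CenA r)
    -- D
    {tsD : List ℕ} (hD : ∀ t ∈ tsD, Pool.Agent.Helper47.TY.RowDead typ nl lane t)
    (hDc : Pool.Agent.Helper47.TY.covM typ (Pool.Agent.Helper47.TY.bm tsD) 5074 = true)
    -- B1a, B1b
    (hB1a : ∀ j r : ℕ, repsF[j]? = some r → Pool.Agent.Helper49.TY.CenB1a r)
    {rootsB : List (ℕ × ℕ)} (hB1p : Pool.Agent.Helper8.TY.PosB typ lane rootsB)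
    (hB1t : ∀ x ∈ rootsB, InR 5074 x.1 ∧ (fam 11 3 (typ x.1)).card ≠ 19)
    (hB1b : ∀ x ∈ rootsB, ∀ j < nl x.1,
      Pool.Agent.Helper33.TY.PDead Pool.Agent.Helper49.TY.QP
        (typ x.1 * 2 ^ 330 + lane x.1 x.2) (cone 11 (fam 11 4 (lane x.1 j))))
    -- E
    (hE : ∀ j r : ℕ, reps[j]? = some r → Pool.Agent.Helper49.TY.CenE reps j r)
    -- T
    (hT : ∀ j B x z, Pool.Agent.Helper30.TY.QT repsF j B x z → False)
    -- F
    (hF : ∀ j r, repsF[j]? = some r → redF j = true →
      ∃ fr cs, rootOK2 r fr cs = true ∧ ∀ f ∈ fr, FrameF repsF j f)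
    -- S
    (h4 : Pool.Agent.Helper25.TY.Dead4) (h2 : Pool.Agent.Helper25.TY.Dead2)
    (h0 : Pool.Agent.Helper25.TY.Dead0)
    -- Z
    (h8 : ∀ B x y, Pool.Agent.Helper89.CV.ZH B x y → False)
    -- X
    {repsX codesX : List ℕ} (hRX : RootOK 0 (fun _ => True) repsX)
    (hXn : Pool.Agent.Helper74.TY.XNorm repsX codesX)
    (hXd : ∀ c ∈ codesX, Pool.Agent.Helper74.TY.XDead c) :
    ∀ B : Finset (Finset (Fin 13)), OddCover B → B.card ≤ 157 → False := by
  have hR := Pool.Agent.Helper16.TY.rootOK_of_counts hL hC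
  have hcF : ClsOK 4 repsF := Pool.Agent.Gen.TY.CF.clsOK_F_of_counts hCA hCB
  have hTab : ∀ t, InR 5074 t → (fam 11 3 (typ t)).card ≠ 19 →
      TableOK (typ t) 6 (fun _ => True) (rowS t) := by
    intro t ht hc
    have h := tableOK_of_flags hR hflag hiso ht hc
    refine fun D h1 h2 h3 h4 => ?_
    obtain ⟨j, i, hi, he⟩ := h D h1 h2 h3 h4
    exact ⟨i, hi, (Prod.mk.inj he).2⟩
  exact top2 (Pool.Agent.Helper52.TY.StA_of (P := fun _ => True) (fun _ _ _ => trivial)
      (fun _ _ _ => trivial) hR hA)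
    (Pool.Agent.Helper47.TY.stD2_rows hR typ_lt lane_lt hflag.flagOK
      (fun t ht h23 => hTab t ht (by omega)) hD hDc)
    (Pool.Agent.Helper49.TY.stB1a_of hcF hB1a)
    (Pool.Agent.Helper8.TY.stB1b_of_roots hcF typ_lt lane_lt hB1p
      (fun x hx => hTab x.1 (hB1t x hx).1 (hB1t x hx).2) hB1b)
    (Pool.Agent.Helper49.TY.stE_of (clsOK_self hR) hE) (Pool.Agent.Helper30.TY.stT_of hcF hT)
    (stF_of_frames hcF hF)
    (Pool.Agent.Helper89.CV.st00_of (Pool.Agent.Helper25.TY.stS00 hCA hCB h0) h8)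
    (Pool.Agent.Helper25.TY.stS02 hCA hCB h2) (Pool.Agent.Helper25.TY.stS04 hCA hCB h4)
    (Pool.Agent.Helper25.TY.stS22 hCA hCB h2) (Pool.Agent.Helper25.TY.stS24 hCA hCB h4)
    (Pool.Agent.Helper74.TY.stX_of_codes hRX hXn hXd)

end Pool.Agent.Helper4.CV
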