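import Pool.Agent.Helper4.CV.Final
import Pool.Agent.Helper8.TY.BLast
import Pool.Agent.Helper60.TY.InstE
import Pool.Agent.Helper38.TY.FinA
import Pool.Agent.Helper9.TY.FinE
import Pool.Agent.Helper67.TY.GluedFinal
import Pool.Agent.Helper85.TY.GlueDone
import Pool.Agent.Gen.TY.CLS.All
import Pool.Agent.Gen.TY.TB2.All
import Pool.Agent.Gen.TY.D.All
import Pool.Agent.Gen.TY.Z.All
import Pool.Agent.Gen.TY.B1.Fin
import Pool.Agent.Gen.TY.S.Fin
import Pool.Agent.Gen.TY.T.All
import Pool.Agent.Gen.TY.T0.Counts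
import Pool.Agent.Gen.TY.X.XAll

/-!
MP_8ee768_co (project TH-Y'): the main theorem; the hypotheses of `main_of` are the statements
which are still open, everything else is closed by the kernel modules.
-/

set_option autoImplicit false

namespace Pool.Agent.Helper4.CV

open Finset
open Pool.Agent.Helper89.CV (OddCover)
open Pool.Agent.Helper97.CV
open Pool.Agent.Helper79.CV
open Pool.Agent.Helper16.TY (reps)
open Pool.Agent.Helper7.TB (typ nl lane cls typF nlF laneF typF_eq nlF_eq laneF_eq laneF_fld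
  lane_eq typ_lt lane_lt)
open Pool.Agent.Helper7.TY (InR IsoL isoL_rows tableOK_of_flags)
open Pool.Agent.Helper82.TY (lanesL)
open Pool.Agent.Helper25.TY (GOK tie_gC)
open Pool.Agent.Gen.TY.T0 (counts countA countB)

/-- the tables of the types from the class theorem -/
theorem rows_ok (hR : RootOK 6 (fun _ => True) reps) {t : ℕ} (ht : InR 5074 t)
    (hc : (fam 11 3 (typ t)).card ≠ 19) : TableOK (typ t) 6 (fun _ => True) (rowS t) := by
  have h := tableOK_of_flags hR Pool.Agent.Gen.TY.FLG.flagL Pool.Agent.Gen.TY.TB2.isoL ht hc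
  refine fun D h1 h2 h3 h4 => ?_
  obtain ⟨j, i, hi, he⟩ := h D h1 h2 h3 h4
  exact ⟨i, hi, (Prod.mk.inj he).2⟩

/-- the isomorphisms, with the fast row functions -/
theorem isoL_F : IsoL 5074 typ lanesL := by
  have e : lanesL = fun t => Pool.Agent.Helper7.TY.LSet (nl t)
      (Pool.Agent.Helper7.TB.laneL (Pool.Agent.Helper7.TB.rowP t)) (cls t) := by
    funext t
    unfold lanesL
    congr 1
    funext i
    exact laneF_eq t i
  rw [e]
  exact isoL_rows Pool.Agent.Gen.TY.ISO.isoH Pool.Agent.Gen.TY.TB2.clH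

/-- **the classes with `MM ≤ 6`** -/
theorem hR : RootOK 6 (fun _ => True) reps :=
  Pool.Agent.Helper16.TY.rootOK_of_counts Pool.Agent.Gen.TY.CLS.lists counts

/-- **the classes with `MM ≤ 4`** -/
theorem hcF : ClsOK 4 repsF := clsOK_repsF hR

/-- the glued tables are complete -/
theorem gok : GOK := Pool.Agent.Helper67.TY.gluedOK hR

/-- the rows with layers are complete -/
theorem rowsC : Pool.Agent.Helper49.TY.RowsC reps typ nl Pool.Agent.Helper7.TB.clr
    Pool.Agent.Helper52.TB.rowX 5074 6 :=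
  Pool.Agent.Helper82.TY.rowsC_of_flags le_rfl
    (by rw [Pool.Agent.Helper9.TY.reps_map, List.length_map, List.length_range]; norm_num)
    hR Pool.Agent.Gen.TY.FLG.flagL_F isoL_F

/-- **no cover with at most 157 blocks, from the open statements** -/
theorem main_of
    -- A, B1a, E
    (hA : Pool.Agent.Helper38.TY.SA 0 24746)
    (hB1a : Pool.Agent.Helper9.TY.SegB Pool.Agent.Helper16.TY.Tab.tv 13 466)
    (hE : Pool.Agent.Helper60.TY.SE 466 24746)
    -- F
    (hF : ClsOK 4 repsF → StF) :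
    ∀ B : Finset (Finset (Fin 13)), OddCover B → B.card ≤ 157 → False :=
  top2 (Pool.Agent.Helper52.TY.StA_of (P := fun _ => True) (fun _ _ _ => trivial)
      (fun _ _ _ => trivial) hR
      (Pool.Agent.Helper38.TY.hA_of hR Pool.Agent.Gen.TY.FLG.flagL_F isoL_F hA))
    (Pool.Agent.Helper47.TY.stD2_rows hR typ_lt lane_lt Pool.Agent.Gen.TY.FLG.flagL.flagOK
      (fun t ht h23 => rows_ok hR ht (by omega))
      (Pool.Agent.Gen.TY.D.rowsD (Pool.Agent.Helper85.TY.glueD hR) tie_gC)
      Pool.Agent.Gen.TY.D.covD)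
    (Pool.Agent.Helper49.TY.stB1a_of hcF (Pool.Agent.Helper9.TY.cenB_F hB1a))
    (Pool.Agent.Helper8.TY.stB1b_of_roots hcF typ_lt lane_lt Pool.Agent.Helper8.TY.posB_lane
      (fun x hx => rows_ok hR (Pool.Agent.Helper8.TY.roots_types x hx).1
        (Pool.Agent.Helper8.TY.roots_types x hx).2) (Pool.Agent.Gen.TY.B1.hB1b gok))
    (Pool.Agent.Helper49.TY.stE_of (clsOK_self hR)
      (Pool.Agent.Helper9.TY.cenE_reps (hE ⟨rowsC, countA, countB⟩)))
    (Pool.Agent.Helper30.TY.stT_of hcF (Pool.Agent.Gen.TY.T.stageT hcF))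
    (hF hcF)
    (Pool.Agent.Helper89.CV.st00_of
      (Pool.Agent.Helper25.TY.stS00 countA countB (Pool.Agent.Gen.TY.S.dead0 gok))
      (Pool.Agent.Gen.TY.Z.h8 countA countB))
    (Pool.Agent.Helper25.TY.stS02 countA countB (Pool.Agent.Gen.TY.S.dead2 gok))
    (Pool.Agent.Helper25.TY.stS04 countA countB (Pool.Agent.Gen.TY.S.dead4 gok))
    (Pool.Agent.Helper25.TY.stS22 countA countB (Pool.Agent.Gen.TY.S.dead2 gok))
    (Pool.Agent.Helper25.TY.stS24 countA countB (Pool.Agent.Gen.TY.S.dead4 gok))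
    (Pool.Agent.Gen.TY.X.XAll.stX hR)

end Pool.Agent.Helper4.CV
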