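import Pool.Agent.Helper4.CV.Stages

/-!
MP_8ee768_co (project TH-Y'), TOP: the case tree. The frozen stage statements of `Stages.lean`
imply that there is no odd `(13,5,4)`-cover with at most 157 blocks.
-/

set_option autoImplicit false

namespace Pool.Agent.Helper4.CV

open Finset
open Pool.Agent.Helper89.CV (OddCover)
open Pool.Agent.Helper97.CV
open Pool.Agent.Helper82.TY (Best exists_best)

/-! ## the arithmetic -/

section arith

variable {B : Finset (Finset (Fin 13))}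

theorem Ind.ww {B : Finset (Finset (Fin 13))} (h : Ind B) {L : Finset (Fin 13)}
    (hL : ∀ x ∈ L, MM B x ≤ 6) : ww B L L = 0 := by
  unfold Helper4.CV.ww
  refine sum_eq_zero fun x hx => sum_eq_zero fun y hy => ?_
  exact h x y (ne_of_mem_erase hy).symm (hL x hx) (hL y (mem_of_mem_erase hy))

/-- number of points with `MM = i` -/
def nn (B : Finset (Finset (Fin 13))) (i : ℕ) : ℕ := (univ.filter fun z => MM B z = i).card

theorem nn_eq (B : Finset (Finset (Fin 13))) (i : ℕ) :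
    nn B i = ∑ z : Fin 13, if MM B z = i then 1 else 0 := by
  unfold nn
  rw [card_filter]

theorem parity (hB : OddCover B) (z : Fin 13) :
    MM B z = 0 ∨ MM B z = 2 ∨ MM B z = 4 ∨ MM B z = 6 ∨ 8 ≤ MM B z := by
  obtain ⟨t, ht⟩ := MM_even hB z
  omega

theorem card_split (hB : OddCover B) :
    nn B 0 + nn B 2 + nn B 4 + nn B 6 + (univ.filter fun z => 8 ≤ MM B z).card = 13 := by
  rw [nn_eq, nn_eq, nn_eq, nn_eq, card_filter, ← sum_add_distrib, ← sum_add_distrib,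
    ← sum_add_distrib, ← sum_add_distrib]
  rw [sum_congr rfl (g := fun _ => 1)]
  · simp
  · intro z _
    rcases parity hB z with h | h | h | h | h
    · simp [h]
    · simp [h]
    · simp [h]
    · simp [h]
    · rw [if_neg (by omega), if_neg (by omega), if_neg (by omega), if_neg (by omega), if_pos h]

theorem light_card (hB : OddCover B) :
    (univ.filter fun z => MM B z ≤ 6).card = nn B 0 + nn B 2 + nn B 4 + nn B 6 := by
  rw [nn_eq, nn_eq, nn_eq, nn_eq, card_filter, ← sum_add_distrib, ← sum_add_distrib,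
    ← sum_add_distrib]
  refine sum_congr rfl fun z _ => ?_
  rcases parity hB z with h | h | h | h | h
  · simp [h]
  · simp [h]
  · simp [h]
  · simp [h]
  · rw [if_neg (by omega), if_neg (by omega), if_neg (by omega), if_neg (by omega),
      if_neg (by omega)]

theorem light_sum (hB : OddCover B) :
    ∑ z ∈ univ.filter (fun z => MM B z ≤ 6), MM B z = 2 * nn B 2 + 4 * nn B 4 + 6 * nn B 6 := by
  rw [nn_eq, nn_eq, nn_eq, sum_filter, mul_sum, mul_sum, mul_sum, ← sum_add_distrib,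
    ← sum_add_distrib]
  refine sum_congr rfl fun z _ => ?_
  rcases parity hB z with h | h | h | h | h
  · simp [h]
  · simp [h]
  · simp [h]
  · simp [h]
  · rw [if_neg (by omega), if_neg (by omega), if_neg (by omega), if_neg (by omega)]
    rfl

theorem sum_split (hB : OddCover B) :
    ∑ z, MM B z = ∑ z ∈ univ.filter (fun z => MM B z ≤ 6), MM B z +
      ∑ z ∈ univ.filter (fun z => 8 ≤ MM B z), MM B z := by
  rw [sum_filter, sum_filter, ← sum_add_distrib]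
  refine sum_congr rfl fun z _ => ?_
  rcases parity hB z with h | h | h | h | h
  · simp [h]
  · simp [h]
  · simp [h]
  · simp [h]
  · rw [if_neg (by omega), if_pos h, zero_add]

theorem heavy_sum (B : Finset (Finset (Fin 13))) :
    8 * (univ.filter fun z => 8 ≤ MM B z).card ≤
      ∑ z ∈ univ.filter (fun z => 8 ≤ MM B z), MM B z := by
  have h := card_nsmul_le_sum (univ.filter fun z => 8 ≤ MM B z) (fun z => MM B z) 8
    fun z hz => (mem_filter.1 hz).2
  rw [smul_eq_mul] at h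
  omega

theorem heavy_eq {B : Finset (Finset (Fin 13))}
    (h : ∑ z ∈ univ.filter (fun z => 8 ≤ MM B z), MM B z ≤
      8 * (univ.filter fun z => 8 ≤ MM B z).card) {u : Fin 13} (hu : 8 ≤ MM B u) :
    MM B u = 8 := by
  by_contra hne
  have h1 : ∑ z ∈ univ.filter (fun z => 8 ≤ MM B z), 8 <
      ∑ z ∈ univ.filter (fun z => 8 ≤ MM B z), MM B z :=
    sum_lt_sum (fun z hz => (mem_filter.1 hz).2)
      ⟨u, mem_filter.2 ⟨mem_univ u, hu⟩, by omega⟩
  rw [sum_const, smul_eq_mul] at h1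
  omega

/-- all the arithmetic for an independent light set with at most two small points -/
theorem arith_two {n0 n2 n4 n6 h SH S a0 a1 a2 a3 a4 c : ℕ} (h13 : n0 + n2 + n4 + n6 + h = 13)
    (hS : S = 2 * n2 + 4 * n4 + 6 * n6 + SH) (hH : 8 * h ≤ SH)
    (hc : 10 * c = 1482 + S) (hodd : c % 2 = 1) (h157 : c ≤ 157)
    (e0 : 4 * (a0 + a1 + a2 + a3 + a4) = 52 + S)
    (e1 : a1 + 2 * a2 + 3 * a3 + 4 * a4 =
      4 * (n0 + n2 + n4 + n6) + (2 * n2 + 4 * n4 + 6 * n6))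
    (e2 : 2 * a2 + 6 * a3 + 12 * a4 =
      (n0 + n2 + n4 + n6) * (n0 + n2 + n4 + n6 - 1) + 3 * 0)
    (hsm : n0 + n2 + n4 ≤ 2) :
    S = 88 ∧ (n0 = 2 ∨ (n0 = 1 ∧ n2 = 1 ∧ 1 ≤ n6) ∨ (n0 = 1 ∧ n4 = 1 ∧ 2 ≤ n6) ∨
      (n0 = 1 ∧ n2 = 0 ∧ n4 = 0 ∧ n6 = 4 ∧ SH = 64 ∧ a0 + a3 + 3 * a4 = 1) ∨
      (n2 = 2 ∧ 2 ≤ n6) ∨
      (n2 = 1 ∧ n4 = 1 ∧ n6 = 3 ∧ SH = 64 ∧ a0 + a3 + 3 * a4 = 1)) := by
  have e3 : 4 * (a0 + a3 + 3 * a4) + 4 * (4 * (n0 + n2 + n4 + n6) + (2 * n2 + 4 * n4 + 6 * n6)) =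
      52 + S + 2 * ((n0 + n2 + n4 + n6) * (n0 + n2 + n4 + n6 - 1)) := by
    generalize (n0 + n2 + n4 + n6) * (n0 + n2 + n4 + n6 - 1) = C at *
    omega
  clear e1 e0 e2
  obtain ⟨b, hb⟩ : ∃ b, b = a0 + a3 + 3 * a4 := ⟨_, rfl⟩
  rw [← hb] at e3 ⊢
  clear hb
  have h0 : n0 ≤ 2 := by omega
  have h2 : n2 ≤ 2 := by omega
  have h4 : n4 ≤ 2 := by omega
  have h6 : n6 ≤ 13 := by omega
  have hS' : S = 88 ∨ S ≤ 68 := by omega
  interval_cases n0 <;> interval_cases n2 <;> first | (exfalso; omega) | interval_cases n4 <;>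
    first | (exfalso; omega) | interval_cases n6 <;>
      first | (exfalso; omega) | (refine ⟨by omega, ?_⟩; omega)

theorem small_card (hB : OddCover B) :
    (univ.filter fun z => MM B z ≤ 4).card = nn B 0 + nn B 2 + nn B 4 := by
  rw [nn_eq, nn_eq, nn_eq, card_filter, ← sum_add_distrib, ← sum_add_distrib]
  refine sum_congr rfl fun z _ => ?_
  rcases parity hB z with h | h | h | h | h
  · simp [h]
  · simp [h]
  · simp [h]
  · simp [h]
  · rw [if_neg (by omega), if_neg (by omega), if_neg (by omega), if_neg (by omega)]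

theorem pick4 {s : Finset (Fin 13)} (h : 4 ≤ s.card) :
    ∃ a ∈ s, ∃ b ∈ s, ∃ c ∈ s, ∃ d ∈ s, a ≠ b ∧ a ≠ c ∧ a ≠ d ∧ b ≠ c ∧ b ≠ d ∧ c ≠ d := by
  obtain ⟨a, ha⟩ := card_pos.1 (by omega : 0 < s.card)
  have h1 : 2 < (s.erase a).card := by rw [card_erase_of_mem ha]; omega
  obtain ⟨b, hb, c, hc, d, hd, hbc, hbd, hcd⟩ := two_lt_card.1 h1
  rw [mem_erase] at hb hc hd
  exact ⟨a, ha, b, hb.2, c, hc.2, d, hd.2, hb.1.symm, hc.1.symm, hd.1.symm, hbc, hbd, hcd⟩

theorem mem_nn {i : ℕ} {z : Fin 13} : z ∈ univ.filter (fun z => MM B z = i) ↔ MM B z = i := by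
  rw [mem_filter]
  exact ⟨fun h => h.2, fun h => ⟨mem_univ _, h⟩⟩

theorem nn_one {i : ℕ} (h : 1 ≤ nn B i) : ∃ x, MM B x = i := by
  unfold nn at h
  obtain ⟨x, hx⟩ := card_pos.1 h
  exact ⟨x, mem_nn.1 hx⟩

theorem nn_two {i : ℕ} (h : 2 ≤ nn B i) : ∃ x y, x ≠ y ∧ MM B x = i ∧ MM B y = i := by
  unfold nn at h
  obtain ⟨x, hx, y, hy, hxy⟩ := one_lt_card.1 h
  exact ⟨x, y, hxy, mem_nn.1 hx, mem_nn.1 hy⟩

theorem nn_three {i : ℕ} (h : 3 ≤ nn B i) : ∃ x y z, x ≠ y ∧ x ≠ z ∧ y ≠ z ∧ MM B x = i ∧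
    MM B y = i ∧ MM B z = i := by
  unfold nn at h
  obtain ⟨x, hx, y, hy, z, hz, h1, h2, h3⟩ := two_lt_card.1 h
  exact ⟨x, y, z, h1, h2, h3, mem_nn.1 hx, mem_nn.1 hy, mem_nn.1 hz⟩

theorem nn_four {i : ℕ} (h : 4 ≤ nn B i) : ∃ a b c d, a ≠ b ∧ a ≠ c ∧ a ≠ d ∧ b ≠ c ∧ b ≠ d ∧
    c ≠ d ∧ MM B a = i ∧ MM B b = i ∧ MM B c = i ∧ MM B d = i := by
  unfold nn at h
  obtain ⟨a, ha, b, hb, c, hc, d, hd, h1, h2, h3, h4, h5, h6⟩ := pick4 h
  exact ⟨a, b, c, d, h1, h2, h3, h4, h5, h6, mem_nn.1 ha, mem_nn.1 hb, mem_nn.1 hc, mem_nn.1 hd⟩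

theorem card_five {a b c d e : Fin 13} (h1 : a ≠ b) (h2 : a ≠ c) (h3 : a ≠ d) (h4 : a ≠ e)
    (h5 : b ≠ c) (h6 : b ≠ d) (h7 : b ≠ e) (h8 : c ≠ d) (h9 : c ≠ e) (h10 : d ≠ e) :
    ({a, b, c, d, e} : Finset (Fin 13)).card = 5 := by
  rw [card_insert_of_notMem, card_insert_of_notMem, card_insert_of_notMem,
    card_insert_of_notMem, card_singleton] <;>
    simp only [mem_insert, mem_singleton, not_or]
  · exact h10
  · exact ⟨h8, h9⟩
  · exact ⟨h5, h6, h7⟩
  · exact ⟨h1, h2, h3, h4⟩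

theorem five_eq {a b c d e : Fin 13} (h1 : a ≠ b) (h2 : a ≠ c) (h3 : a ≠ d) (h4 : a ≠ e)
    (h5 : b ≠ c) (h6 : b ≠ d) (h7 : b ≠ e) (h8 : c ≠ d) (h9 : c ≠ e) (h10 : d ≠ e)
    (ha : MM B a ≤ 6) (hb : MM B b ≤ 6) (hc : MM B c ≤ 6) (hd : MM B d ≤ 6) (he : MM B e ≤ 6)
    (h : (univ.filter fun z => MM B z ≤ 6).card = 5) :
    ({a, b, c, d, e} : Finset (Fin 13)) = univ.filter fun z => MM B z ≤ 6 := by
  apply eq_of_subset_of_card_le
  · intro z hz
    simp only [mem_insert, mem_singleton] at hz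
    rw [mem_filter]
    rcases hz with rfl | rfl | rfl | rfl | rfl
    · exact ⟨mem_univ _, ha⟩
    · exact ⟨mem_univ _, hb⟩
    · exact ⟨mem_univ _, hc⟩
    · exact ⟨mem_univ _, hd⟩
    · exact ⟨mem_univ _, he⟩
  · rw [h, card_five h1 h2 h3 h4 h5 h6 h7 h8 h9 h10]

theorem five_heavy (hodd : OddCover B) {a b c d e : Fin 13}
    (h : ({a, b, c, d, e} : Finset (Fin 13)) = (univ.filter fun z => MM B z ≤ 6))
    (h64 : ∑ z ∈ univ.filter (fun z => 8 ≤ MM B z), MM B z ≤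
      8 * (univ.filter fun z => 8 ≤ MM B z).card) :
    ∀ u, u ≠ a → u ≠ b → u ≠ c → u ≠ d → u ≠ e → MM B u = 8 := by
  intro u h1 h2 h3 h4 h5
  apply heavy_eq h64
  have h6 : u ∉ univ.filter fun z => MM B z ≤ 6 := by
    rw [← h]
    simp only [mem_insert, mem_singleton, not_or]
    exact ⟨h1, h2, h3, h4, h5⟩
  rw [mem_filter] at h6
  rcases parity hodd u with h7 | h7 | h7 | h7 | h7
  · exact absurd ⟨mem_univ _, by omega⟩ h6
  · exact absurd ⟨mem_univ _, by omega⟩ h6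
  · exact absurd ⟨mem_univ _, by omega⟩ h6
  · exact absurd ⟨mem_univ _, by omega⟩ h6
  · exact h7

end arith

/-- TOP for independent light sets -/
theorem top_ind (h00 : St00) (h02 : St02) (h04 : St04) (h22 : St22) (h24 : St24)
    (h0 : StX) {B : Finset (Finset (Fin 13))} (hB : Best B) (hI : Ind B)
    (hs : ¬ 3 ≤ (univ.filter fun z => MM B z ≤ 4).card) : False := by
  have hodd := hB.odd
  have hc := ten_card hodd
  obtain ⟨t, ht⟩ := hodd.odd_card
  have hL := light_card hodd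
  have hLs := light_sum hodd
  have hsm := small_card hodd
  have e0 := aa_zero hodd (univ.filter fun z => MM B z ≤ 6)
  have e1 := aa_one hodd (univ.filter fun z => MM B z ≤ 6)
  have e2 := aa_two hodd (univ.filter fun z => MM B z ≤ 6)
  rw [hI.ww fun x hx => (mem_filter.1 hx).2, hL] at e2
  rw [hL, hLs] at e1
  have hss := sum_split hodd
  rw [hLs] at hss
  obtain ⟨hS, hcase⟩ := arith_two (card_split hodd) hss (heavy_sum B) hc
    (by omega) hB.le e0 e1 e2 (by omega)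
  -- the small points
  have hother : ∀ x y : Fin 13, x ≠ y → MM B x ≤ 4 → MM B y ≤ 4 →
      ∀ u, u ≠ x → u ≠ y → 6 ≤ MM B u := by
    intro x y hxy hx hy u hux huy
    by_contra hu
    obtain ⟨k, hk⟩ := MM_even hodd u
    have h1 : ({x, y, u} : Finset (Fin 13)) ⊆ univ.filter fun z => MM B z ≤ 4 := by
      intro a ha
      rw [mem_insert, mem_insert, mem_singleton] at ha
      rw [mem_filter]
      rcases ha with rfl | rfl | rfl
      · exact ⟨mem_univ _, hx⟩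
      · exact ⟨mem_univ _, hy⟩
      · exact ⟨mem_univ _, by omega⟩
    have h2 := card_le_card h1
    rw [card_eq_three.2 ⟨x, y, u, hxy, hux.symm, huy.symm, rfl⟩] at h2
    exact hs h2
  have hcs := card_split hodd
  rcases hcase with h | ⟨h1, h2, h6⟩ | ⟨h1, h4, h6⟩ | ⟨h1, h2, h4, h6, hH, ha⟩ | ⟨h2, h6⟩ |
    ⟨h2, h4, h6, hH, ha⟩
  · obtain ⟨x, y, hxy, hx, hy⟩ := nn_two (B := B) (i := 0) (by omega)
    exact h00 B x y ⟨hB, hI, hxy, hx, hy, hother x y hxy (by omega) (by omega), hS⟩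
  · obtain ⟨x, hx⟩ := nn_one (B := B) (i := 0) (by omega)
    obtain ⟨y, hy⟩ := nn_one (B := B) (i := 2) (by omega)
    obtain ⟨z, hz⟩ := nn_one (B := B) (i := 6) (by omega)
    have hxy : x ≠ y := by rintro rfl; omega
    exact h02 B x y ⟨hB, hI, hxy, hx, hy, hother x y hxy (by omega) (by omega), hS⟩ z hz
  · obtain ⟨x, hx⟩ := nn_one (B := B) (i := 0) (by omega)
    obtain ⟨y, hy⟩ := nn_one (B := B) (i := 4) (by omega)
    obtain ⟨z, w, hzw, hz, hw⟩ := nn_two (B := B) (i := 6) (by omega)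
    have hxy : x ≠ y := by rintro rfl; omega
    exact h04 B x y ⟨hB, hI, hxy, hx, hy, hother x y hxy (by omega) (by omega), hS⟩ z w hzw hz hw
  · obtain ⟨x, hx⟩ := nn_one (B := B) (i := 0) (by omega)
    obtain ⟨z, w, v, t, g1, g2, g3, g4, g5, g6, hz, hw, hv, ht⟩ :=
      nn_four (B := B) (i := 6) (by omega)
    have q1 : x ≠ z := by rintro rfl; omega
    have q2 : x ≠ w := by rintro rfl; omega
    have q3 : x ≠ v := by rintro rfl; omega
    have q4 : x ≠ t := by rintro rfl; omega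
    have hLe := five_eq (B := B) q1 q2 q3 q4 g1 g2 g3 g4 g5 g6 (by omega) (by omega) (by omega)
      (by omega) (by omega) (by omega)
    rw [← hLe] at ha
    exact h0 B hB hI x z w v t q1 q2 q3 q4 g1 g2 g3 g4 g5 g6 hx hz hw hv ht
      (five_heavy hodd hLe (by omega)) ha
  · obtain ⟨x, y, hxy, hx, hy⟩ := nn_two (B := B) (i := 2) (by omega)
    obtain ⟨z, w, hzw, hz, hw⟩ := nn_two (B := B) (i := 6) (by omega)
    exact h22 B x y ⟨hB, hI, hxy, hx, hy, hother x y hxy (by omega) (by omega), hS⟩ z w hzw hz hw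
  · obtain ⟨x, hx⟩ := nn_one (B := B) (i := 2) (by omega)
    obtain ⟨y, hy⟩ := nn_one (B := B) (i := 4) (by omega)
    obtain ⟨z, w, v, g1, g2, g3, hz, hw, hv⟩ := nn_three (B := B) (i := 6) (by omega)
    have hxy : x ≠ y := by rintro rfl; omega
    have q1 : x ≠ z := by rintro rfl; omega
    have q2 : x ≠ w := by rintro rfl; omega
    have q3 : x ≠ v := by rintro rfl; omega
    have q4 : y ≠ z := by rintro rfl; omega
    have q5 : y ≠ w := by rintro rfl; omega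
    have q6 : y ≠ v := by rintro rfl; omega
    have hLe := five_eq (B := B) hxy q1 q2 q3 q4 q5 q6 g1 g2 g3 (by omega) (by omega) (by omega)
      (by omega) (by omega) (by omega)
    rw [← hLe] at ha
    exact h24 B x y ⟨hB, hI, hxy, hx, hy, hother x y hxy (by omega) (by omega), hS⟩ z w v g1 g2 g3
      hz hw hv (five_heavy hodd hLe (by omega)) ha

end Pool.Agent.Helper4.CV
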